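import Mathlib
import Pool.Prelude.Def_F_cd681771

/-!
# Cycles in coprime graphs: from base sequences with connectors to cycles
-/

set_option autoImplicit false
open N9a221aa5

namespace Pool.Agent.H15.CG

/-- A cyclic sequence `v 0, …, v (m-1)` of distinct members of `A`, cyclically adjacent ones
coprime. -/
def HasCyc (A : Finset ℕ) (m : ℕ) : Prop :=
  ∃ v : ℕ → ℕ, (∀ i < m, v i ∈ A) ∧ (∀ i < m, ∀ j < m, v i = v j → i = j) ∧
    (∀ i, i + 1 < m → Nat.Coprime (v i) (v (i + 1))) ∧ Nat.Coprime (v (m - 1)) (v 0)

theorem HasCyc.mono {A B : Finset ℕ} {m : ℕ} (h : HasCyc A m) (hAB : A ⊆ B) : HasCyc B m := by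
  obtain ⟨v, h1, h2, h3, h4⟩ := h
  exact ⟨v, fun i hi => hAB (h1 i hi), h2, h3, h4⟩

theorem HasCyc.mem_cycleLengths {A : Finset ℕ} {m : ℕ} (hm : 3 ≤ m) (h : HasCyc A m) :
    m ∈ (coprimeGraph.induce (A : Set ℕ)).cycleLengths := by
  obtain ⟨v, h1, h2, h3, h4⟩ := h
  rw [SimpleGraph.mem_cycleLengths_iff]
  rw [← SimpleGraph.cycleGraph_isContained_iff (by omega)]
  obtain ⟨k, rfl⟩ : ∃ k, m = k + 2 := ⟨m - 2, by omega⟩
  have key : ∀ a b : Fin (k + 2), b - a = 1 → Nat.Coprime (v a.val) (v b.val) := by
    intro a b hab
    have hb : b = a + 1 := by rw [← hab]; abel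
    subst hb
    by_cases ha : a.val + 1 < k + 2
    · have : (a + 1).val = a.val + 1 := by
        rw [Fin.val_add_one_of_lt]
        rw [Fin.lt_def]
        simp only [Fin.val_last]
        omega
      rw [this]
      exact h3 _ ha
    · have ha' : a.val = k + 1 := by omega
      have hl : a = Fin.last (k + 1) := by
        apply Fin.ext
        simp only [Fin.val_last]
        omega
      rw [hl, Fin.last_add_one]
      simpa using h4
  refine ⟨⟨⟨fun i => ⟨v i.val, h1 i.val i.isLt⟩, ?_⟩, ?_⟩⟩
  · intro a b hab
    have hne : v a.val ≠ v b.val := by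
      intro he
      have := h2 _ a.isLt _ b.isLt he
      exact hab.ne (Fin.ext this)
    rw [SimpleGraph.cycleGraph_adj] at hab
    simp only [SimpleGraph.comap_adj, Function.Embedding.subtype_apply, coprimeGraph,
      SimpleGraph.fromRel_adj]
    refine ⟨hne, ?_⟩
    rcases hab with hab | hab
    · exact Or.inr (key _ _ hab)
    · exact Or.inl (key _ _ hab)
  · intro a b hab
    simp only [RelHom.coeFn_mk, Subtype.mk.injEq] at hab
    exact Fin.ext (h2 _ a.isLt _ b.isLt hab)

/-- The list version. -/
theorem HasCyc.of_list {A : Finset ℕ} (L : List ℕ) (hL : L ≠ []) (hA : ∀ x ∈ L, x ∈ A)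
    (hnd : L.Nodup) (hc : L.IsChain Nat.Coprime)
    (hcl : Nat.Coprime (L.getLast hL) (L.head hL)) : HasCyc A L.length := by
  have hpos : 0 < L.length := List.length_pos_iff.mpr hL
  have hg : ∀ i (hi : i < L.length), L.getD i 0 = L[i] := by
    intro i hi
    simp [List.getD_eq_getElem?_getD, List.getElem?_eq_getElem hi]
  refine ⟨fun i => L.getD i 0, ?_, ?_, ?_, ?_⟩
  · intro i hi
    simp only [hg i hi]
    exact hA _ (List.getElem_mem hi)
  · intro i hi j hj hij
    simp only [hg i hi, hg j hj] at hij
    exact (List.Nodup.getElem_inj_iff hnd).mp hij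
  · intro i hi
    simp only [hg i (by omega), hg (i + 1) hi]
    exact List.IsChain.getElem hc i hi
  · simp only [hg (L.length - 1) (by omega), hg 0 hpos]
    rw [← List.getLast_eq_getElem hL]
    rw [List.head_eq_getElem] at hcl
    exact hcl

/-- The expanded list: after base element `B i` insert the connector `c i` if `i ∈ J`. -/
def expand (B c : ℕ → ℕ) (J : Finset ℕ) : ℕ → List ℕ
  | 0 => []
  | k + 1 => expand B c J k ++ (if k ∈ J then [B k, c k] else [B k])

theorem expand_length (B c : ℕ → ℕ) (J : Finset ℕ) (b : ℕ) :
    (expand B c J b).length = b + (J.filter (· < b)).card := by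
  induction b with
  | zero => simp [expand]
  | succ k ih =>
    rw [expand, List.length_append, ih]
    by_cases hk : k ∈ J
    · have : J.filter (· < k + 1) = insert k (J.filter (· < k)) := by
        ext x
        simp only [Finset.mem_filter, Finset.mem_insert]
        constructor
        · rintro ⟨hx, hxk⟩
          by_cases hx' : x = k
          · exact Or.inl hx'
          · exact Or.inr ⟨hx, by omega⟩
        · rintro (rfl | ⟨hx, hxk⟩)
          · exact ⟨hk, by omega⟩
          · exact ⟨hx, by omega⟩
      rw [this, Finset.card_insert_of_notMem (by simp)]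
      simp [hk]
      omega
    · have : J.filter (· < k + 1) = J.filter (· < k) := by
        ext x
        simp only [Finset.mem_filter]
        constructor
        · rintro ⟨hx, hxk⟩
          refine ⟨hx, ?_⟩
          rcases Nat.lt_succ_iff_lt_or_eq.mp hxk with h | h
          · exact h
          · exact absurd (h ▸ hx) hk
        · rintro ⟨hx, hxk⟩
          exact ⟨hx, by omega⟩
      rw [this]
      simp [hk]
      omega

theorem mem_expand {B c : ℕ → ℕ} {J : Finset ℕ} {b x : ℕ} :
    x ∈ expand B c J b ↔ (∃ i < b, x = B i) ∨ (∃ i < b, i ∈ J ∧ x = c i) := by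
  induction b with
  | zero => simp [expand]
  | succ k ih =>
    rw [expand, List.mem_append, ih]
    constructor
    · rintro ((⟨i, hi, rfl⟩ | ⟨i, hi, hiJ, rfl⟩) | h)
      · exact Or.inl ⟨i, by omega, rfl⟩
      · exact Or.inr ⟨i, by omega, hiJ, rfl⟩
      · by_cases hk : k ∈ J
        · simp only [hk, if_true, List.mem_cons, List.not_mem_nil, or_false] at h
          rcases h with rfl | rfl
          · exact Or.inl ⟨k, by omega, rfl⟩
          · exact Or.inr ⟨k, by omega, hk, rfl⟩
        · simp only [hk, if_false, List.mem_cons, List.not_mem_nil, or_false] at h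
          exact Or.inl ⟨k, by omega, h⟩
    · rintro (⟨i, hi, rfl⟩ | ⟨i, hi, hiJ, rfl⟩)
      · by_cases hik : i = k
        · subst hik
          right
          by_cases hk : i ∈ J <;> simp [hk]
        · exact Or.inl (Or.inl ⟨i, by omega, rfl⟩)
      · by_cases hik : i = k
        · subst hik
          right
          simp [hiJ]
        · exact Or.inl (Or.inr ⟨i, by omega, hiJ, rfl⟩)

/-- **Builder lemma.**  A cyclic base sequence `B 0, …, B (b-1)` (with `B b = B 0`) of distinct
elements; the gaps in `J` (gap `i` is between `B i` and `B (i+1)`) receive distinct connectors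
`c i`, outside the base and coprime to both ends; the other gaps are directly coprime. -/
theorem builder {A : Finset ℕ} (b : ℕ) (B c : ℕ → ℕ) (J : Finset ℕ) (hb : 0 < b)
    (hJ : ∀ i ∈ J, i < b)
    (hBA : ∀ i < b, B i ∈ A) (hcA : ∀ i ∈ J, c i ∈ A)
    (hBinj : ∀ i < b, ∀ j < b, B i = B j → i = j)
    (hcinj : ∀ i ∈ J, ∀ j ∈ J, c i = c j → i = j)
    (hcB : ∀ i ∈ J, ∀ j < b, c i ≠ B j)
    (hBb : B b = B 0)
    (hdir : ∀ i < b, i ∉ J → Nat.Coprime (B i) (B (i + 1)))
    (hlink : ∀ i ∈ J, Nat.Coprime (B i) (c i) ∧ Nat.Coprime (c i) (B (i + 1))) :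
    HasCyc A (b + J.card) := by
  -- main induction
  have main : ∀ k, k ≤ b → (expand B c J k).Nodup ∧ (expand B c J k).IsChain Nat.Coprime ∧
      (∀ x ∈ (expand B c J k).getLast?, Nat.Coprime x (B k)) ∧
      (0 < k → (expand B c J k).head? = some (B 0)) := by
    intro k
    induction k with
    | zero =>
      intro _
      simp [expand]
    | succ k ih =>
      intro hk
      obtain ⟨ih1, ih2, ih3, ih4⟩ := ih (by omega)
      have hBk : B k ∉ expand B c J k := by
        rw [mem_expand]
        rintro (⟨i, hi, he⟩ | ⟨i, hi, hiJ, he⟩)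
        · have := hBinj k (by omega) i (by omega) he
          omega
        · exact hcB i hiJ k (by omega) he.symm
      have hhead : (expand B c J (k + 1)).head? = some (B 0) := by
        rw [expand, List.head?_append]
        by_cases hk0 : k = 0
        · subst hk0
          by_cases h0 : 0 ∈ J <;> simp [expand, h0]
        · rw [ih4 (by omega)]
          simp
      by_cases hkJ : k ∈ J
      · have hck : c k ∉ expand B c J k := by
          rw [mem_expand]
          rintro (⟨i, hi, he⟩ | ⟨i, hi, hiJ, he⟩)
          · exact hcB k hkJ i (by omega) he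
          · have := hcinj k hkJ i hiJ he
            omega
        have hBc : B k ≠ c k := fun h => hcB k hkJ k (by omega) h.symm
        have hex : expand B c J (k + 1) = expand B c J k ++ [B k, c k] := by
          rw [expand]; simp [hkJ]
        refine ⟨?_, ?_, ?_, fun _ => hhead⟩
        · rw [hex, List.nodup_append]
          refine ⟨ih1, by simp [hBc], ?_⟩
          intro x hx y hy
          simp only [List.mem_cons, List.not_mem_nil, or_false] at hy
          rcases hy with rfl | rfl
          · rintro rfl; exact hBk hx
          · rintro rfl; exact hck hx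
        · rw [hex, List.isChain_append]
          refine ⟨ih2, ?_, ?_⟩
          · simp only [List.isChain_cons_cons, List.IsChain.singleton, and_true]
            exact (hlink k hkJ).1
          · intro x hx y hy
            simp only [List.head?_cons, Option.mem_def, Option.some.injEq] at hy
            subst hy
            exact ih3 x hx
        · intro x hx
          rw [hex] at hx
          simp only [List.getLast?_append, List.getLast?_cons_cons, List.getLast?_singleton,
            Option.some_or, Option.mem_def, Option.some.injEq] at hx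
          subst hx
          exact (hlink k hkJ).2
      · have hex : expand B c J (k + 1) = expand B c J k ++ [B k] := by
          rw [expand]; simp [hkJ]
        refine ⟨?_, ?_, ?_, fun _ => hhead⟩
        · rw [hex, List.nodup_append]
          refine ⟨ih1, by simp, ?_⟩
          intro x hx y hy
          simp only [List.mem_cons, List.not_mem_nil, or_false] at hy
          subst hy
          rintro rfl; exact hBk hx
        · rw [hex, List.isChain_append]
          refine ⟨ih2, by simp, ?_⟩
          intro x hx y hy
          simp only [List.head?_cons, Option.mem_def, Option.some.injEq] at hy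
          subst hy
          exact ih3 x hx
        · intro x hx
          rw [hex] at hx
          simp only [List.getLast?_append, List.getLast?_singleton,
            Option.some_or, Option.mem_def, Option.some.injEq] at hx
          subst hx
          exact hdir k (by omega) hkJ
  obtain ⟨m1, m2, m3, m4⟩ := main b le_rfl
  have hlen := expand_length B c J b
  have hfil : J.filter (· < b) = J := Finset.filter_true_of_mem hJ
  rw [hfil] at hlen
  have hne : expand B c J b ≠ [] := by
    intro h
    rw [h] at hlen
    simp at hlen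
    omega
  rw [← hlen]
  refine HasCyc.of_list _ hne ?_ m1 m2 ?_
  · intro x hx
    rw [mem_expand] at hx
    rcases hx with ⟨i, hi, rfl⟩ | ⟨i, hi, hiJ, rfl⟩
    · exact hBA i hi
    · exact hcA i hiJ
  · have h0 := m4 hb
    have h1 := m3 _ (List.getLast_mem_getLast? hne)
    rw [hBb] at h1
    have h2 : (expand B c J b).head hne = B 0 := by
      rw [List.head?_eq_some_head hne] at h0
      exact Option.some.inj h0
    rw [h2]
    exact h1

/-- **Hardest first.**  If for each `i ∈ J` the number of `j ∈ J` of level at most that of `i` does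
not exceed the number of candidates for `i`, then distinct representatives exist. -/
theorem choose_rank {α : Type*} [LinearOrder α] (J : Finset ℕ) (S : ℕ → Finset ℕ) (lev : ℕ → α)
    (h : ∀ i ∈ J, (J.filter (fun j => lev j ≤ lev i)).card ≤ (S i).card) :
    ∃ c : ℕ → ℕ, (∀ i ∈ J, c i ∈ S i) ∧ (∀ i ∈ J, ∀ j ∈ J, c i = c j → i = j) := by
  classical
  have hall : ∀ s : Finset J, s.card ≤ (s.biUnion (fun i : J => S i.val)).card := by
    intro s
    rcases s.eq_empty_or_nonempty with rfl | hs
    · simp
    · obtain ⟨i, his, hmax⟩ := s.exists_max_image (fun i : J => lev i.val) hs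
      calc s.card = (s.map (Function.Embedding.subtype _)).card := by
            rw [Finset.card_map]
        _ ≤ (J.filter (fun j => lev j ≤ lev i.val)).card := by
            apply Finset.card_le_card
            intro x hx
            simp only [Finset.mem_map, Function.Embedding.subtype_apply] at hx
            obtain ⟨a, ha, rfl⟩ := hx
            simp only [Finset.mem_filter]
            exact ⟨a.property, hmax a ha⟩
        _ ≤ (S i.val).card := h i.val i.property
        _ ≤ (s.biUnion (fun i : J => S i.val)).card := by
            apply Finset.card_le_card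
            intro x hx
            rw [Finset.mem_biUnion]
            exact ⟨i, his, hx⟩
  obtain ⟨f, hf1, hf2⟩ :=
    (Finset.all_card_le_biUnion_card_iff_exists_injective (fun i : J => S i.val)).mp hall
  refine ⟨fun i => if hi : i ∈ J then f ⟨i, hi⟩ else 0, ?_, ?_⟩
  · intro i hi
    simp only [hi, dif_pos]
    exact hf2 ⟨i, hi⟩
  · intro i hi j hj hij
    simp only [hi, hj, dif_pos] at hij
    have := hf1 hij
    simpa using this

/-- **Builder with candidate sets.** -/
theorem builder_rank {α : Type*} [LinearOrder α] {A : Finset ℕ} (b : ℕ) (B : ℕ → ℕ)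
    (J : Finset ℕ) (S : ℕ → Finset ℕ) (lev : ℕ → α) (hb : 0 < b)
    (hJ : ∀ i ∈ J, i < b)
    (hBA : ∀ i < b, B i ∈ A)
    (hBinj : ∀ i < b, ∀ j < b, B i = B j → i = j)
    (hBb : B b = B 0)
    (hdir : ∀ i < b, i ∉ J → Nat.Coprime (B i) (B (i + 1)))
    (hSA : ∀ i ∈ J, ∀ x ∈ S i, x ∈ A)
    (hSB : ∀ i ∈ J, ∀ x ∈ S i, ∀ j < b, x ≠ B j)
    (hSlink : ∀ i ∈ J, ∀ x ∈ S i, Nat.Coprime (B i) x ∧ Nat.Coprime x (B (i + 1)))
    (hrank : ∀ i ∈ J, (J.filter (fun j => lev j ≤ lev i)).card ≤ (S i).card) :
    HasCyc A (b + J.card) := by
  obtain ⟨c, hc1, hc2⟩ := choose_rank J S lev hrank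
  exact builder b B c J hb hJ hBA (fun i hi => hSA i hi _ (hc1 i hi)) hBinj hc2
    (fun i hi j hj => hSB i hi _ (hc1 i hi) j hj) hBb hdir
    (fun i hi => hSlink i hi _ (hc1 i hi))

end Pool.Agent.H15.CG
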