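import Mathlib
import Pool.Agent.H15.CG.Builder

/-!
# Residue classes modulo 6
-/

set_option autoImplicit false

namespace Pool.Agent.H15.CG

/-- integers up to `n` having a common factor with 6 -/
def VS (n : ℕ) : Finset ℕ := (Finset.Icc 1 n).filter (fun j => ¬ Nat.Coprime j 6)
/-- integers up to `n` coprime to 6 -/
def US (n : ℕ) : Finset ℕ := (Finset.Icc 1 n).filter (fun j => Nat.Coprime j 6)
/-- odd multiples of 3 up to `n` -/
def TS (n : ℕ) : Finset ℕ := (Finset.Icc 1 n).filter (fun j => j % 6 = 3)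
/-- even non multiples of 3 up to `n` -/
def ES (n : ℕ) : Finset ℕ := (Finset.Icc 1 n).filter (fun j => j % 6 = 2 ∨ j % 6 = 4)

theorem coprime_six_iff (j : ℕ) : Nat.Coprime j 6 ↔ (j % 6 = 1 ∨ j % 6 = 5) := by
  have h : Nat.Coprime j 6 ↔ Nat.Coprime (j % 6) 6 := by
    unfold Nat.Coprime
    rw [Nat.gcd_comm, ← Nat.gcd_rec, Nat.gcd_comm]
  rw [h]
  have hlt : j % 6 < 6 := Nat.mod_lt _ (by norm_num)
  interval_cases (j % 6) <;> decide

theorem mem_US {n j : ℕ} : j ∈ US n ↔ 1 ≤ j ∧ j ≤ n ∧ (j % 6 = 1 ∨ j % 6 = 5) := by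
  simp only [US, Finset.mem_filter, Finset.mem_Icc, coprime_six_iff, and_assoc]

theorem mem_VS {n j : ℕ} : j ∈ VS n ↔ 1 ≤ j ∧ j ≤ n ∧ ¬ (j % 6 = 1 ∨ j % 6 = 5) := by
  simp only [VS, Finset.mem_filter, Finset.mem_Icc, coprime_six_iff, and_assoc]

theorem mem_TS {n j : ℕ} : j ∈ TS n ↔ 1 ≤ j ∧ j ≤ n ∧ j % 6 = 3 := by
  simp only [TS, Finset.mem_filter, Finset.mem_Icc, and_assoc]

theorem mem_ES {n j : ℕ} : j ∈ ES n ↔ 1 ≤ j ∧ j ≤ n ∧ (j % 6 = 2 ∨ j % 6 = 4) := by
  simp only [ES, Finset.mem_filter, Finset.mem_Icc, and_assoc]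

theorem card_filter_Icc_succ (p : ℕ → Prop) [DecidablePred p] (n : ℕ) :
    ((Finset.Icc 1 (n + 1)).filter p).card =
      ((Finset.Icc 1 n).filter p).card + (if p (n + 1) then 1 else 0) := by
  have h : Finset.Icc 1 (n + 1) = insert (n + 1) (Finset.Icc 1 n) := by
    ext x
    simp only [Finset.mem_Icc, Finset.mem_insert]
    omega
  rw [h, Finset.filter_insert]
  by_cases hp : p (n + 1)
  · rw [if_pos hp, if_pos hp, Finset.card_insert_of_notMem]
    intro hmem
    simp only [Finset.mem_filter, Finset.mem_Icc] at hmem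
    omega
  · rw [if_neg hp, if_neg hp]
    rfl

theorem card_VS (n : ℕ) : (VS n).card = n / 2 + n / 3 - n / 6 := by
  induction n with
  | zero => simp [VS]
  | succ n ih =>
    unfold VS at ih ⊢
    rw [card_filter_Icc_succ, ih]
    by_cases h : Nat.Coprime (n + 1) 6
    · have h' := (coprime_six_iff _).mp h
      rw [if_neg (not_not.mpr h)]
      omega
    · have h' : ¬ ((n + 1) % 6 = 1 ∨ (n + 1) % 6 = 5) := fun h2 => h ((coprime_six_iff _).mpr h2)
      rw [if_pos h]
      omega

theorem card_US (n : ℕ) : (US n).card + (n / 2 + n / 3 - n / 6) = n := by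
  induction n with
  | zero => simp [US]
  | succ n ih =>
    unfold US at ih ⊢
    rw [card_filter_Icc_succ]
    by_cases h : Nat.Coprime (n + 1) 6
    · have h' := (coprime_six_iff _).mp h
      rw [if_pos h]
      omega
    · have h' : ¬ ((n + 1) % 6 = 1 ∨ (n + 1) % 6 = 5) := fun h2 => h ((coprime_six_iff _).mpr h2)
      rw [if_neg h]
      have h6 : n % 6 = 1 ∨ n % 6 = 2 ∨ n % 6 = 3 ∨ n % 6 = 5 := by omega
      rcases h6 with h6 | h6 | h6 | h6 <;> omega

theorem card_TS (n : ℕ) : (TS n).card = (n + 3) / 6 := by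
  induction n with
  | zero => simp [TS]
  | succ n ih =>
    unfold TS at ih ⊢
    rw [card_filter_Icc_succ, ih]
    by_cases h : (n + 1) % 6 = 3
    · simp only [h, if_true]
      omega
    · simp only [h, if_false]
      omega

theorem card_ES (n : ℕ) : (ES n).card = (n + 4) / 6 + (n + 2) / 6 := by
  induction n with
  | zero => simp [ES]
  | succ n ih =>
    unfold ES at ih ⊢
    rw [card_filter_Icc_succ, ih]
    by_cases h : (n + 1) % 6 = 2 ∨ (n + 1) % 6 = 4
    · simp only [h, if_true]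
      omega
    · simp only [h, if_false]
      omega

theorem US_union_VS (n : ℕ) : US n ∪ VS n = Finset.Icc 1 n := by
  ext x
  simp only [Finset.mem_union, mem_US, mem_VS, Finset.mem_Icc]
  tauto

theorem US_disj_VS (n : ℕ) : Disjoint (US n) (VS n) := by
  rw [Finset.disjoint_left]
  intro x hx hy
  rw [mem_US] at hx
  rw [mem_VS] at hy
  exact hy.2.2 hx.2.2

theorem ES_subset_VS (n : ℕ) : ES n ⊆ VS n := by
  intro x hx
  rw [mem_ES] at hx
  rw [mem_VS]
  omega

theorem TS_subset_VS (n : ℕ) : TS n ⊆ VS n := by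
  intro x hx
  rw [mem_TS] at hx
  rw [mem_VS]
  omega

theorem US_disj_TS (n : ℕ) : Disjoint (US n) (TS n) := by
  rw [Finset.disjoint_left]
  intro x hx hy
  rw [mem_US] at hx
  rw [mem_TS] at hy
  omega

/-- two odd numbers differing by 2 or 4 are coprime -/
theorem coprime_of_diff {a b : ℕ} (ha : a % 2 = 1) (h : b = a + 2 ∨ b = a + 4) :
    Nat.Coprime a b := by
  have hodd : Odd a := Nat.odd_iff.mpr ha
  have h2 : Nat.Coprime a 2 := Nat.coprime_two_right.mpr hodd
  have h4 : Nat.Coprime a 4 := by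
    have := h2.pow_right 2
    simpa using this
  rcases h with rfl | rfl
  · rw [Nat.coprime_self_add_right]; exact h2
  · rw [Nat.coprime_self_add_right]; exact h4

/-- An enumeration of a finite set starting at a given point. -/
theorem enum1 (X : Finset ℕ) (x : ℕ) (hx : x ∈ X) :
    ∃ u : ℕ → ℕ, u 0 = x ∧ (∀ i < X.card, u i ∈ X) ∧
      (∀ i < X.card, ∀ j < X.card, u i = u j → i = j) := by
  classical
  set L : List ℕ := x :: (X.erase x).toList with hL
  have hnd : L.Nodup := by
    rw [hL, List.nodup_cons]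
    refine ⟨?_, Finset.nodup_toList _⟩
    simp
  have hlen : L.length = X.card := by
    rw [hL, List.length_cons, Finset.length_toList, Finset.card_erase_add_one hx]
  have hg : ∀ i (hi : i < L.length), L.getD i 0 = L[i] := by
    intro i hi
    simp [List.getD_eq_getElem?_getD, List.getElem?_eq_getElem hi]
  refine ⟨fun i => L.getD i 0, ?_, ?_, ?_⟩
  · simp [hL]
  · intro i hi
    rw [← hlen] at hi
    simp only [hg i hi]
    have h0 : ∀ z ∈ L, z ∈ X := by
      intro z hz
      rw [hL, List.mem_cons, Finset.mem_toList] at hz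
      rcases hz with h | h
      · rw [h]; exact hx
      · exact Finset.mem_of_mem_erase h
    exact h0 _ (List.getElem_mem hi)
  · intro i hi j hj hij
    rw [← hlen] at hi hj
    simp only [hg i hi, hg j hj] at hij
    exact (List.Nodup.getElem_inj_iff hnd).mp hij

/-- An enumeration of a finite set starting at two given points. -/
theorem enum2 (X : Finset ℕ) (x y : ℕ) (hx : x ∈ X) (hy : y ∈ X) (hxy : x ≠ y) :
    ∃ u : ℕ → ℕ, u 0 = x ∧ u 1 = y ∧ (∀ i < X.card, u i ∈ X) ∧
      (∀ i < X.card, ∀ j < X.card, u i = u j → i = j) := by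
  obtain ⟨u, hu0, hu1, hu2⟩ := enum1 (X.erase x) y (Finset.mem_erase.mpr ⟨hxy.symm, hy⟩)
  have hc : (X.erase x).card + 1 = X.card := Finset.card_erase_add_one hx
  refine ⟨fun i => if i = 0 then x else u (i - 1), by simp, by simp [hu0], ?_, ?_⟩
  · intro i hi
    by_cases h0 : i = 0
    · simp [h0, hx]
    · simp only [h0, if_false]
      exact Finset.mem_of_mem_erase (hu1 (i - 1) (by omega))
  · intro i hi j hj hij
    by_cases h0 : i = 0 <;> by_cases h1 : j = 0
    · omega
    · simp only [h0, h1, if_true, if_false] at hij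
      have := hu1 (j - 1) (by omega)
      rw [← hij] at this
      simp at this
    · simp only [h0, h1, if_true, if_false] at hij
      have := hu1 (i - 1) (by omega)
      rw [hij] at this
      simp at this
    · simp only [h0, h1, if_false] at hij
      have := hu2 (i - 1) (by omega) (j - 1) (by omega) hij
      omega

/-- The pair condition for numbers coprime to 6. -/
def PairU (n : ℕ) : Prop :=
  ∀ a ∈ US n, ∀ b ∈ US n,
    (US n).card ≤ ((VS n).filter (fun j => Nat.Coprime a j ∧ Nat.Coprime j b)).card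

/-- The pair condition for pairs containing an odd multiple of 3. -/
def PairT (n : ℕ) : Prop :=
  ∀ a ∈ US n ∪ TS n, ∀ b ∈ US n ∪ TS n, (3 ∣ a ∨ 3 ∣ b) →
    n / 6 + 1 ≤ ((ES n).filter (fun j => Nat.Coprime a j ∧ Nat.Coprime j b)).card

/-- counting inside `A` -/
theorem card_filter_inter (X A : Finset ℕ) (p : ℕ → Prop) [DecidablePred p] :
    (X.filter p).card ≤ ((X ∩ A).filter p).card + (X \ A).card := by
  classical
  calc (X.filter p).card ≤ (((X ∩ A).filter p) ∪ (X \ A)).card := by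
        apply Finset.card_le_card
        intro x hx
        simp only [Finset.mem_filter, Finset.mem_union, Finset.mem_inter,
          Finset.mem_sdiff] at hx ⊢
        tauto
    _ ≤ _ := Finset.card_union_le _ _

/-- A coprime pair of odd members, one of which is prime to 6. -/
theorem exists_pair {n : ℕ} (hn : 3 ≤ n) {A : Finset ℕ}
    (hc : (n + 3) / 6 + 1 ≤ (A ∩ (US n ∪ TS n)).card) :
    ∃ u ∈ A ∩ US n, ∃ o ∈ A ∩ (US n ∪ TS n), u ≠ o ∧ Nat.Coprime u o := by
  classical
  have hmem : ∀ x, x ∈ A ∩ (US n ∪ TS n) ↔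
      x ∈ A ∧ 1 ≤ x ∧ x ≤ n ∧ (x % 6 = 1 ∨ x % 6 = 5 ∨ x % 6 = 3) := by
    intro x
    simp only [Finset.mem_inter, Finset.mem_union, mem_US, mem_TS]
    tauto
  have hmemU : ∀ x, x ∈ A ∩ US n ↔
      x ∈ A ∧ 1 ≤ x ∧ x ≤ n ∧ (x % 6 = 1 ∨ x % 6 = 5) := by
    intro x
    simp only [Finset.mem_inter, mem_US]
  by_cases h1 : 1 ∈ A
  · have : 1 < (A ∩ (US n ∪ TS n)).card := by omega
    obtain ⟨o, ho, ho1⟩ := Finset.exists_mem_ne this 1
    refine ⟨1, (hmemU 1).mpr ⟨h1, by omega, by omega, by omega⟩, o, ho, ho1.symm, ?_⟩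
    exact Nat.coprime_one_left o
  · have hmaps : ∀ x ∈ A ∩ (US n ∪ TS n), (x + 3) / 6 ∈ Finset.Icc 1 ((n + 3) / 6) := by
      intro x hx
      rw [hmem] at hx
      rw [Finset.mem_Icc]
      have : x ≠ 1 := by
        rintro rfl
        exact h1 hx.1
      omega
    have hlt : (Finset.Icc 1 ((n + 3) / 6)).card < (A ∩ (US n ∪ TS n)).card := by
      rw [Nat.card_Icc]
      omega
    obtain ⟨x, hx, y, hy, hxy, he⟩ :=
      Finset.exists_ne_map_eq_of_card_lt_of_maps_to hlt hmaps
    have hx' := (hmem x).mp hx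
    have hy' := (hmem y).mp hy
    have hcop : Nat.Coprime x y := by
      rcases Nat.lt_or_gt_of_ne hxy with h | h
      · exact coprime_of_diff (by omega) (by omega)
      · exact (coprime_of_diff (by omega) (by omega)).symm
    by_cases hxu : x % 6 = 3
    · exact ⟨y, (hmemU y).mpr ⟨hy'.1, hy'.2.1, hy'.2.2.1, by omega⟩, x, hx, hxy.symm, hcop.symm⟩
    · exact ⟨x, (hmemU x).mpr ⟨hx'.1, hx'.2.1, hx'.2.2.1, by omega⟩, y, hy, hxy, hcop⟩

end Pool.Agent.H15.CG
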