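import Mathlib
import Pool.Agent.H15.CG.Basic

/-!
# Base sequences `T … T U … U` with one direct gap
-/

set_option autoImplicit false

namespace Pool.Agent.H15.CG

/-- cyclic base: `t 0, …, t (q-1), u 0, …, u (s-1)` and back to the start -/
def baseTU (q s : ℕ) (t u : ℕ → ℕ) (i : ℕ) : ℕ :=
  if i < q then t i else if i < q + s then u (i - q) else (if 0 < q then t 0 else u 0)

theorem baseTU_T {q s : ℕ} {t u : ℕ → ℕ} {i : ℕ} (hi : i < q) : baseTU q s t u i = t i := by
  simp [baseTU, hi]

theorem baseTU_U {q s : ℕ} {t u : ℕ → ℕ} {i : ℕ} (hi : q ≤ i) (hi2 : i < q + s) :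
    baseTU q s t u i = u (i - q) := by
  simp [baseTU, Nat.not_lt.mpr hi, hi2]

theorem baseTU_end {q s : ℕ} {t u : ℕ → ℕ} (hs : 0 < s) :
    baseTU q s t u (q + s) = baseTU q s t u 0 := by
  unfold baseTU
  by_cases hq : 0 < q
  · simp [hq]
  · have : q = 0 := by omega
    subst this
    simp [hs]

/-- The `T…TU…U` construction. -/
theorem caseTU {n K q s : ℕ} {A : Finset ℕ} (hP1 : PairU n) (hP2 : PairT n)
    (t u : ℕ → ℕ)
    (ht : ∀ i < q, t i ∈ A ∩ TS n) (hu : ∀ i < s, u i ∈ A ∩ US n)
    (htinj : ∀ i < q, ∀ j < q, t i = t j → i = j)
    (huinj : ∀ i < s, ∀ j < s, u i = u j → i = j)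
    (hqs : q + s = K + 1) (hs : 0 < s) (d : ℕ) (hd : d ≤ K)
    (hdir : Nat.Coprime (baseTU q s t u d) (baseTU q s t u (d + 1)))
    (hT : 0 < q → (((Finset.range (K + 1)).erase d).filter (fun i => i < q ∨ i = K)).card +
      (ES n \ A).card ≤ n / 6 + 1)
    (hU : K + (VS n \ A).card + q ≤ (US n).card) :
    HasCyc A (2 * K + 1) := by
  classical
  set B := baseTU q s t u with hB
  set J := (Finset.range (K + 1)).erase d with hJdef
  have hJcard : J.card = K := by
    rw [hJdef, Finset.card_erase_of_mem (by simp; omega), Finset.card_range]
    omega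
  -- the type of gaps
  have hBT : ∀ i < q, B i ∈ A ∩ TS n := by
    intro i hi
    rw [hB, baseTU_T hi]
    exact ht i hi
  have hBU : ∀ i, q ≤ i → i < K + 1 → B i ∈ A ∩ US n := by
    intro i hi hi2
    rw [hB, baseTU_U hi (by omega)]
    exact hu _ (by omega)
  have hBend : B (K + 1) = B 0 := by
    rw [← hqs, hB]
    exact baseTU_end hs
  have hBodd : ∀ i ≤ K + 1, B i ∈ A ∩ (US n ∪ TS n) := by
    have h0 : ∀ i < K + 1, B i ∈ A ∩ (US n ∪ TS n) := by
      intro i hi
      by_cases hiq : i < q
      · have := hBT i hiq
        simp only [Finset.mem_inter, Finset.mem_union] at this ⊢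
        tauto
      · have := hBU i (by omega) hi
        simp only [Finset.mem_inter, Finset.mem_union] at this ⊢
        tauto
    intro i hi
    rcases Nat.lt_or_ge i (K + 1) with h | h
    · exact h0 i h
    · have : i = K + 1 := by omega
      subst this
      rw [hBend]
      exact h0 0 (by omega)
  set baseSet := (Finset.range q).image t with hbs
  have hbscard : baseSet.card ≤ q := by
    rw [hbs]
    exact Finset.card_image_le.trans (by simp)
  -- candidates
  let S : ℕ → Finset ℕ := fun i =>
    if 0 < q ∧ (i < q ∨ i = K) then
      (ES n ∩ A).filter (fun j => Nat.Coprime (B i) j ∧ Nat.Coprime j (B (i + 1)))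
    else
      ((VS n ∩ A).filter (fun j => Nat.Coprime (B i) j ∧ Nat.Coprime j (B (i + 1)))) \ baseSet
  let lev : ℕ → ℕ := fun i => if 0 < q ∧ (i < q ∨ i = K) then 0 else 1
  have hres : HasCyc A (K + 1 + J.card) := by
    apply builder_rank (K + 1) B J S lev (by omega)
    · intro i hi
      rw [hJdef, Finset.mem_erase, Finset.mem_range] at hi
      exact hi.2
    · intro i hi
      exact (Finset.mem_inter.mp (hBodd i (by omega))).1
    · -- injectivity
      intro i hi j hj hij
      by_cases hiq : i < q <;> by_cases hjq : j < q
      · rw [hB, baseTU_T hiq, baseTU_T hjq] at hij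
        exact htinj i hiq j hjq hij
      · exfalso
        have h1 := (Finset.mem_inter.mp (hBT i hiq)).2
        have h2 := (Finset.mem_inter.mp (hBU j (by omega) hj)).2
        rw [hij] at h1
        exact (Finset.disjoint_left.mp (US_disj_TS n)) h2 h1
      · exfalso
        have h1 := (Finset.mem_inter.mp (hBT j hjq)).2
        have h2 := (Finset.mem_inter.mp (hBU i (by omega) hi)).2
        rw [hij] at h2
        exact (Finset.disjoint_left.mp (US_disj_TS n)) h2 h1
      · rw [hB, baseTU_U (by omega) (by omega), baseTU_U (by omega) (by omega)] at hij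
        have := huinj (i - q) (by omega) (j - q) (by omega) hij
        omega
    · exact hBend
    · intro i hi hiJ
      have : i = d := by
        by_contra h
        exact hiJ (by rw [hJdef, Finset.mem_erase, Finset.mem_range]; exact ⟨h, hi⟩)
      subst this
      exact hdir
    · intro i hi x hx
      simp only [S] at hx
      split_ifs at hx
      · exact (Finset.mem_inter.mp (Finset.mem_filter.mp hx).1).2
      · exact (Finset.mem_inter.mp (Finset.mem_filter.mp (Finset.mem_sdiff.mp hx).1).1).2
    · intro i hi x hx j hj hxj
      simp only [S] at hx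
      split_ifs at hx
      · have h1 := (Finset.mem_inter.mp (Finset.mem_filter.mp hx).1).1
        have h2 := (Finset.mem_inter.mp (hBodd j (by omega))).2
        rw [← hxj] at h2
        rw [Finset.mem_union, mem_US, mem_TS] at h2
        rw [mem_ES] at h1
        omega
      · have h3 := (Finset.mem_sdiff.mp hx).2
        have h1 := (Finset.mem_inter.mp (Finset.mem_filter.mp (Finset.mem_sdiff.mp hx).1).1).1
        by_cases hjq : j < q
        · apply h3
          rw [hbs, Finset.mem_image]
          refine ⟨j, by simpa using hjq, ?_⟩
          rw [hxj, hB, baseTU_T hjq]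
        · have h2 := (Finset.mem_inter.mp (hBU j (by omega) hj)).2
          rw [← hxj] at h2
          exact (Finset.disjoint_left.mp (US_disj_VS n)) h2 h1
    · intro i hi x hx
      simp only [S] at hx
      split_ifs at hx
      · exact (Finset.mem_filter.mp hx).2
      · exact (Finset.mem_filter.mp (Finset.mem_sdiff.mp hx).1).2
    · intro i hi
      have hiK : i < K + 1 := by
        rw [hJdef, Finset.mem_erase, Finset.mem_range] at hi
        exact hi.2
      by_cases hty : 0 < q ∧ (i < q ∨ i = K)
      · have hlev : lev i = 0 := by simp only [lev, hty, and_self, if_true]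
        have hSi : S i = (ES n ∩ A).filter
            (fun j => Nat.Coprime (B i) j ∧ Nat.Coprime j (B (i + 1))) := by
          simp only [S, hty, and_self, if_true]
        rw [hSi, hlev]
        have hsub : J.filter (fun j => lev j ≤ 0) ⊆ J.filter (fun i => i < q ∨ i = K) := by
          intro x hx
          rw [Finset.mem_filter] at hx ⊢
          refine ⟨hx.1, ?_⟩
          by_contra hcon
          have : lev x = 1 := by
            have : ¬ (0 < q ∧ (x < q ∨ x = K)) := fun h => hcon h.2
            simp only [lev, this, if_false]
          omega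
        have h1 := Finset.card_le_card hsub
        have h2 := hT hty.1
        have h3 : n / 6 + 1 ≤ ((ES n).filter
            (fun j => Nat.Coprime (B i) j ∧ Nat.Coprime j (B (i + 1)))).card := by
          apply hP2 _ (Finset.mem_inter.mp (hBodd i (by omega))).2 _
            (Finset.mem_inter.mp (hBodd (i + 1) (by omega))).2
          rcases hty.2 with h | h
          · left
            have := (Finset.mem_inter.mp (hBT i h)).2
            rw [mem_TS] at this
            omega
          · right
            subst h
            rw [hBend]
            have := (Finset.mem_inter.mp (hBT 0 hty.1)).2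
            rw [mem_TS] at this
            omega
        have h4 := card_filter_inter (ES n) A
          (fun j => Nat.Coprime (B i) j ∧ Nat.Coprime j (B (i + 1)))
        omega
      · have hlev : lev i = 1 := by simp only [lev, hty, if_false]
        have hSi : S i = ((VS n ∩ A).filter
            (fun j => Nat.Coprime (B i) j ∧ Nat.Coprime j (B (i + 1)))) \ baseSet := by
          simp only [S, hty, if_false]
        rw [hSi, hlev]
        have h1 : (J.filter (fun j => lev j ≤ 1)).card ≤ K := by
          rw [← hJcard]
          exact Finset.card_filter_le _ _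
        have hqi : q ≤ i := by
          by_contra hcon
          exact hty ⟨by omega, Or.inl (by omega)⟩
        have h3 : (US n).card ≤ ((VS n).filter
            (fun j => Nat.Coprime (B i) j ∧ Nat.Coprime j (B (i + 1)))).card := by
          apply hP1 _ (Finset.mem_inter.mp (hBU i hqi hiK)).2
          by_cases hiK' : i = K
          · have hq0 : q = 0 := by
              by_contra hcon
              exact hty ⟨by omega, Or.inr hiK'⟩
            subst hiK'
            rw [hBend]
            exact (Finset.mem_inter.mp (hBU 0 (by omega) (by omega))).2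
          · exact (Finset.mem_inter.mp (hBU (i + 1) (by omega) (by omega))).2
        have h4 := card_filter_inter (VS n) A
          (fun j => Nat.Coprime (B i) j ∧ Nat.Coprime j (B (i + 1)))
        have h5 := Finset.le_card_sdiff baseSet ((VS n ∩ A).filter
            (fun j => Nat.Coprime (B i) j ∧ Nat.Coprime j (B (i + 1))))
        omega
  rw [hJcard] at hres
  have : 2 * K + 1 = K + 1 + K := by ring
  rw [this]
  exact hres

end Pool.Agent.H15.CG
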