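import Mathlib
import Pool.Agent.H15.CG.CaseTU

/-!
# Case I: few members coprime to 6
-/

set_option autoImplicit false

namespace Pool.Agent.H15.CG

/-- Basic counts for a set with `f(n)+1` members. -/
theorem counts {n : ℕ} {A : Finset ℕ} (hA : A ⊆ Finset.Icc 1 n)
    (hc : A.card = n / 2 + n / 3 - n / 6 + 1) :
    (VS n \ A).card + 1 = (A ∩ US n).card ∧
    (ES n \ A).card ≤ (VS n \ A).card ∧
    (n + 3) / 6 ≤ (A ∩ TS n).card + (VS n \ A).card ∧
    (A ∩ (US n ∪ TS n)).card = (A ∩ US n).card + (A ∩ TS n).card ∧
    (ES n \ A).card + (TS n \ A).card ≤ (VS n \ A).card := by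
  classical
  have h1 : A.card = (A ∩ US n).card + (A ∩ VS n).card := by
    rw [← Finset.card_union_of_disjoint, ← Finset.inter_union_distrib_left, US_union_VS,
      Finset.inter_eq_left.mpr hA]
    exact (US_disj_VS n).mono Finset.inter_subset_right Finset.inter_subset_right
  have h2 : (VS n).card = (VS n \ A).card + (A ∩ VS n).card := by
    rw [Finset.inter_comm, Finset.card_sdiff_add_card_inter]
  have h3 := card_VS n
  have h4 : (ES n \ A).card ≤ (VS n \ A).card :=
    Finset.card_le_card (Finset.sdiff_subset_sdiff (ES_subset_VS n) (Finset.Subset.refl A))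
  have h5 : (TS n).card = (TS n \ A).card + (A ∩ TS n).card := by
    rw [Finset.inter_comm, Finset.card_sdiff_add_card_inter]
  have h6 := card_TS n
  have h7 : (A ∩ (US n ∪ TS n)).card = (A ∩ US n).card + (A ∩ TS n).card := by
    rw [Finset.inter_union_distrib_left, Finset.card_union_of_disjoint]
    exact (US_disj_TS n).mono Finset.inter_subset_right Finset.inter_subset_right
  have h8 : (ES n \ A).card + (TS n \ A).card ≤ (VS n \ A).card := by
    rw [← Finset.card_union_of_disjoint]
    · apply Finset.card_le_card
      intro x hx
      rw [Finset.mem_union, Finset.mem_sdiff, Finset.mem_sdiff] at hx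
      rw [Finset.mem_sdiff]
      rcases hx with hx | hx
      · exact ⟨ES_subset_VS n hx.1, hx.2⟩
      · exact ⟨TS_subset_VS n hx.1, hx.2⟩
    · rw [Finset.disjoint_left]
      intro x hx hy
      rw [Finset.mem_sdiff, mem_ES] at hx
      rw [Finset.mem_sdiff, mem_TS] at hy
      omega
  refine ⟨by omega, h4, by omega, h7, h8⟩

/-- **Case I.** -/
theorem caseI {n K : ℕ} {A : Finset ℕ} (hA : A ⊆ Finset.Icc 1 n)
    (hc : A.card = n / 2 + n / 3 - n / 6 + 1) (hK : 1 ≤ K) (hK2 : 2 * K ≤ n / 3)
    (hP1 : PairU n) (hP2 : PairT n)
    (hs : (A ∩ US n).card + K ≤ (US n).card) : HasCyc A (2 * K + 1) := by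
  classical
  obtain ⟨c1, c2, c3, c4, c5⟩ := counts hA hc
  have hKn : K ≤ n / 6 := by omega
  have hn6 : 6 ≤ n := by omega
  have hUc : 2 * K ≤ (US n).card := by
    have := card_US n
    omega
  set s0 := (A ∩ US n).card with hs0
  by_cases hpair : ∃ x ∈ A ∩ US n, ∃ y ∈ A ∩ US n, x ≠ y ∧ Nat.Coprime x y
  · obtain ⟨x, hx, y, hy, hxy, hcop⟩ := hpair
    obtain ⟨u, hu0, hu1, huA, huinj⟩ := enum2 (A ∩ US n) x y hx hy hxy
    have hs2 : 2 ≤ s0 := by
      have : ({x, y} : Finset ℕ).card ≤ (A ∩ US n).card := by
        apply Finset.card_le_card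
        intro z hz
        simp only [Finset.mem_insert, Finset.mem_singleton] at hz
        rcases hz with rfl | rfl
        · exact hx
        · exact hy
      rwa [Finset.card_pair hxy] at this
    by_cases hsK : K + 1 ≤ s0
    · -- all base elements coprime to 6
      apply caseTU (q := 0) (s := K + 1) hP1 hP2 (fun _ => 0) u (by intro i hi; omega)
        (fun i hi => huA i (by omega)) (by intro i hi; omega)
        (fun i hi j hj => huinj i (by omega) j (by omega)) (by omega) (by omega) 0 (by omega)
      · rw [baseTU_U (by omega) (by omega), baseTU_U (by omega) (by omega)]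
        simp only [Nat.sub_zero, hu0, hu1, Nat.zero_add]
        exact hcop
      · intro h
        omega
      · omega
    · -- all of `A ∩ US`, and odd multiples of 3
      have hTne : 0 < (A ∩ TS n).card := by omega
      obtain ⟨t0, ht0⟩ := Finset.card_pos.mp hTne
      obtain ⟨t, ht1, htA, htinj⟩ := enum1 (A ∩ TS n) t0 ht0
      have hq : K + 1 - s0 ≤ (A ∩ TS n).card := by omega
      apply caseTU (q := K + 1 - s0) (s := s0) hP1 hP2 t u
        (fun i hi => htA i (by omega)) (fun i hi => huA i (by omega))
        (fun i hi j hj => htinj i (by omega) j (by omega))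
        (fun i hi j hj => huinj i (by omega) j (by omega))
        (by omega) (by omega) (K + 1 - s0) (by omega)
      · rw [baseTU_U (by omega) (by omega), baseTU_U (by omega) (by omega)]
        have e1 : K + 1 - s0 - (K + 1 - s0) = 0 := by omega
        have e2 : K + 1 - s0 + 1 - (K + 1 - s0) = 1 := by omega
        rw [e1, e2, hu0, hu1]
        exact hcop
      · intro _
        have : (((Finset.range (K + 1)).erase (K + 1 - s0)).filter
            (fun i => i < K + 1 - s0 ∨ i = K)).card ≤ K + 1 - s0 + 1 := by
          calc _ ≤ (insert K (Finset.range (K + 1 - s0))).card := by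
                apply Finset.card_le_card
                intro z hz
                simp only [Finset.mem_filter, Finset.mem_insert, Finset.mem_range] at hz ⊢
                tauto
            _ ≤ (Finset.range (K + 1 - s0)).card + 1 := Finset.card_insert_le _ _
            _ = _ := by rw [Finset.card_range]
        omega
      · omega
  · -- no coprime pair in `A ∩ US`
    obtain ⟨x, hx, o, ho, hxo, hcop⟩ := exists_pair (A := A) (n := n) (by omega) (by omega)
    have hoT : o ∈ A ∩ TS n := by
      by_contra hcon
      apply hpair
      refine ⟨x, hx, o, ?_, hxo, hcop⟩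
      simp only [Finset.mem_inter, Finset.mem_union] at ho hcon ⊢
      tauto
    -- s0 ≤ n/6 + 1
    have hsmall : s0 ≤ n / 6 + 1 := by
      by_cases h1 : 1 ∈ A ∩ US n
      · by_contra hcon
        have h2 : 1 < (A ∩ US n).card := by omega
        obtain ⟨y, hy, hy1⟩ := Finset.exists_mem_ne h2 1
        exact hpair ⟨1, h1, y, hy, hy1.symm, Nat.coprime_one_left y⟩
      · by_contra hcon
        have hmaps : ∀ z ∈ A ∩ US n, (z + 1) / 6 ∈ Finset.Icc 1 (n / 6 + 1) := by
          intro z hz
          have hz1 : z ≠ 1 := by
            rintro rfl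
            exact h1 hz
          have := (Finset.mem_inter.mp hz).2
          rw [mem_US] at this
          rw [Finset.mem_Icc]
          omega
        have hlt : (Finset.Icc 1 (n / 6 + 1)).card < (A ∩ US n).card := by
          rw [Nat.card_Icc]
          omega
        obtain ⟨a, ha, b, hb, hab, he⟩ :=
          Finset.exists_ne_map_eq_of_card_lt_of_maps_to hlt hmaps
        have ha' := (Finset.mem_inter.mp ha).2
        have hb' := (Finset.mem_inter.mp hb).2
        rw [mem_US] at ha' hb'
        apply hpair
        refine ⟨a, ha, b, hb, hab, ?_⟩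
        rcases Nat.lt_or_gt_of_ne hab with h | h
        · exact coprime_of_diff (by omega) (by omega)
        · exact (coprime_of_diff (by omega) (by omega)).symm
    have hs1 : 1 ≤ s0 := by omega
    obtain ⟨u, hu0, huA, huinj⟩ := enum1 (A ∩ US n) x hx
    obtain ⟨t', ht0, htA, htinj⟩ := enum1 (A ∩ TS n) o hoT
    -- general step
    have step : ∀ q s : ℕ, q + s = K + 1 → 0 < q → 0 < s → s ≤ s0 → q ≤ (A ∩ TS n).card →
        q + (ES n \ A).card ≤ n / 6 + 1 → K + (VS n \ A).card + q ≤ (US n).card →
        HasCyc A (2 * K + 1) := by
      intro q s hqs hq hs hss0 hqT hE hV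
      apply caseTU (q := q) (s := s) hP1 hP2 (fun i => t' (q - 1 - i)) u
        (fun i hi => htA _ (by omega)) (fun i hi => huA i (by omega))
        (by
          intro i hi j hj hij
          have := htinj (q - 1 - i) (by omega) (q - 1 - j) (by omega) hij
          omega)
        (fun i hi j hj => huinj i (by omega) j (by omega)) hqs hs (q - 1) (by omega)
      · rw [baseTU_T (by omega), baseTU_U (by omega) (by omega)]
        have e1 : q - 1 - (q - 1) = 0 := by omega
        have e2 : q - 1 + 1 - q = 0 := by omega
        rw [e1, e2, ht0, hu0]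
        exact hcop.symm
      · intro _
        have : (((Finset.range (K + 1)).erase (q - 1)).filter
            (fun i => i < q ∨ i = K)).card ≤ q := by
          calc _ ≤ (insert K (Finset.range (q - 1))).card := by
                apply Finset.card_le_card
                intro z hz
                simp only [Finset.mem_filter, Finset.mem_insert, Finset.mem_range,
                  Finset.mem_erase] at hz ⊢
                omega
            _ ≤ (Finset.range (q - 1)).card + 1 := Finset.card_insert_le _ _
            _ = _ := by rw [Finset.card_range]; omega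
        omega
      · exact hV
    by_cases hsK : s0 ≤ K
    · exact step (K + 1 - s0) s0 (by omega) (by omega) (by omega) le_rfl (by omega) (by omega)
        (by omega)
    · have hT1 : 1 ≤ (A ∩ TS n).card := Finset.card_pos.mpr ⟨o, hoT⟩
      exact step 1 K (by omega) (by omega) (by omega) (by omega) hT1 (by omega) (by omega)

end Pool.Agent.H15.CG
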