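import Mathlib
import Pool.Agent.H15.CG.CaseI

/-!
# Case II: many members coprime to 6
-/

set_option autoImplicit false

namespace Pool.Agent.H15.CG

/-- the next number coprime to 6 -/
def nextU (x : ℕ) : ℕ := if x % 6 = 1 then x + 4 else x + 2

/-- **Case II.** -/
theorem caseII {n K : ℕ} {A : Finset ℕ} (hA : A ⊆ Finset.Icc 1 n)
    (hc : A.card = n / 2 + n / 3 - n / 6 + 1) (hK : 1 ≤ K) (hK2 : 2 * K ≤ n / 3)
    (hP1 : PairU n)
    (hs : (US n).card < (A ∩ US n).card + K) : HasCyc A (2 * K + 1) := by
  classical
  obtain ⟨c1, c2, c3, c4, c5⟩ := counts hA hc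
  have hKn : K ≤ n / 6 := by omega
  have hn6 : 6 ≤ n := by omega
  have hUc : 2 * K ≤ (US n).card := by
    have := card_US n
    omega
  set X := A ∩ US n with hX
  have hXsub : X ⊆ US n := Finset.inter_subset_right
  have hXcard : X.card ≤ (US n).card := Finset.card_le_card hXsub
  -- number of base elements
  obtain ⟨s, hs1⟩ : ∃ s, s + (US n).card = 2 * K + X.card := ⟨2 * K + X.card - (US n).card, by omega⟩
  have hsX : s ≤ X.card := by omega
  have hsK : K + 1 ≤ s := by omega
  set e := X.orderEmbOfFin rfl with he
  let B : ℕ → ℕ := fun i => if h : i < s then e ⟨i, by omega⟩ else e ⟨0, by omega⟩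
  have hBlt : ∀ i (h : i < s), B i = e ⟨i, by omega⟩ := by
    intro i h
    simp only [B, h, dif_pos]
  have hBs : B s = B 0 := by
    simp only [B]
    have : 0 < s := by omega
    simp only [lt_irrefl, dif_neg, not_false_eq_true, this, dif_pos]
  have hBX : ∀ i ≤ s, B i ∈ X := by
    intro i hi
    rcases Nat.lt_or_ge i s with h | h
    · rw [hBlt i h]
      exact Finset.orderEmbOfFin_mem X rfl _
    · have : i = s := by omega
      rw [this, hBs, hBlt 0 (by omega)]
      exact Finset.orderEmbOfFin_mem X rfl _
  have hBinj : ∀ i < s, ∀ j < s, B i = B j → i = j := by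
    intro i hi j hj hij
    rw [hBlt i hi, hBlt j hj] at hij
    have := e.injective hij
    simpa using this
  have hBmono : ∀ i < s, ∀ j < s, i < j → B i < B j := by
    intro i hi j hj hij
    rw [hBlt i hi, hBlt j hj]
    exact e.strictMono (by simpa using hij)
  -- the next element
  have hnext : ∀ i, i + 1 < s → ∀ y ∈ X, B i < y → B (i + 1) ≤ y := by
    intro i hi y hy hlt
    have : y ∈ Set.range e := by
      rw [he, Finset.range_orderEmbOfFin]
      exact hy
    obtain ⟨k, rfl⟩ := this
    rw [hBlt i (by omega)] at hlt
    rw [hBlt (i + 1) hi]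
    have h1 := e.lt_iff_lt.mp hlt
    apply e.monotone
    rw [Fin.lt_def] at h1
    rw [Fin.le_def]
    exact h1
  -- non coprime gaps
  set J0 := (Finset.range s).filter (fun i => ¬ Nat.Coprime (B i) (B (i + 1))) with hJ0
  have hUmem : ∀ i ≤ s, 1 ≤ B i ∧ B i ≤ n ∧ (B i % 6 = 1 ∨ B i % 6 = 5) := by
    intro i hi
    have := hXsub (hBX i hi)
    rwa [mem_US] at this
  have hJ0card : J0.card ≤ (US n \ A).card := by
    apply Finset.card_le_card_of_injOn (fun i => if i + 1 < s then nextU (B i) else 1)
    · intro i hi
      have hi' : i ∈ J0 := hi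
      rw [hJ0, Finset.mem_filter, Finset.mem_range] at hi'
      obtain ⟨his, hnc⟩ := hi'
      simp only [Finset.coe_sdiff, Set.mem_sdiff, Finset.mem_coe]
      by_cases h1 : i + 1 < s
      · rw [if_pos h1]
        have hm := hUmem i (by omega)
        have hm1 := hUmem (i + 1) (by omega)
        have hlt := hBmono i his (i + 1) h1 (by omega)
        have hle : nextU (B i) ≤ B (i + 1) := by
          unfold nextU
          split_ifs <;> omega
        have hU : nextU (B i) ∈ US n := by
          rw [mem_US]
          refine ⟨by unfold nextU; split_ifs <;> omega, by omega, ?_⟩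
          unfold nextU; split_ifs <;> omega
        refine ⟨hU, ?_⟩
        intro hAm
        have hX' : nextU (B i) ∈ X := by
          rw [hX, Finset.mem_inter]
          exact ⟨hAm, hU⟩
        have := hnext i h1 _ hX' (by unfold nextU; split_ifs <;> omega)
        have heq : B (i + 1) = nextU (B i) := le_antisymm this hle
        apply hnc
        apply coprime_of_diff (by omega)
        rw [heq]
        unfold nextU
        split_ifs
        · right; rfl
        · left; rfl
      · rw [if_neg h1]
        have his1 : i + 1 = s := by omega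
        have hU : 1 ∈ US n := by
          rw [mem_US]
          omega
        refine ⟨hU, ?_⟩
        intro hAm
        have h1X : 1 ∈ X := by
          rw [hX, Finset.mem_inter]
          exact ⟨hAm, hU⟩
        have : (1 : ℕ) ∈ Set.range e := by
          rw [he, Finset.range_orderEmbOfFin]
          exact h1X
        obtain ⟨k, hk⟩ := this
        have h0 : B 0 ≤ 1 := by
          rw [hBlt 0 (by omega), ← hk]
          apply e.monotone
          rw [Fin.le_def]
          exact Nat.zero_le _
        have h00 : B 0 = 1 := by
          have := hUmem 0 (by omega)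
          omega
        apply hnc
        rw [his1, hBs, h00]
        exact Nat.coprime_one_right _
    · intro i hi j hj hij
      have hi' : i ∈ J0 := hi
      have hj' : j ∈ J0 := hj
      rw [hJ0, Finset.mem_filter, Finset.mem_range] at hi' hj'
      have hmono : ∀ a b : ℕ, a + 1 < s → b + 1 < s → a < b → nextU (B a) < nextU (B b) := by
        intro a b ha hb hab
        have h1 := hBmono a (by omega) b (by omega) hab
        have h2 := hUmem a (by omega)
        have h3 := hUmem b (by omega)
        unfold nextU
        split_ifs <;> omega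
      by_cases h1 : i + 1 < s <;> by_cases h2 : j + 1 < s
      · simp only [h1, h2, if_true] at hij
        rcases Nat.lt_trichotomy i j with h | h | h
        · have := hmono i j h1 h2 h
          omega
        · exact h
        · have := hmono j i h2 h1 h
          omega
      · simp only [h1, h2, if_true, if_false] at hij
        exfalso
        have := hUmem i (by omega)
        unfold nextU at hij
        split_ifs at hij <;> omega
      · simp only [h1, h2, if_true, if_false] at hij
        exfalso
        have := hUmem j (by omega)
        unfold nextU at hij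
        split_ifs at hij <;> omega
      · omega
  have hUsplit : (US n).card = (US n \ A).card + X.card := by
    rw [hX, Finset.inter_comm, Finset.card_sdiff_add_card_inter]
  -- choose the link gaps
  obtain ⟨J, hJ0J, hJs, hJcard⟩ : ∃ J, J0 ⊆ J ∧ J ⊆ Finset.range s ∧ J.card = 2 * K + 1 - s := by
    have hsub0 : J0 ⊆ Finset.range s := by
      rw [hJ0]
      exact Finset.filter_subset _ _
    apply Finset.exists_subsuperset_card_eq hsub0
    · omega
    · rw [Finset.card_range]
      omega
  let S : ℕ → Finset ℕ := fun i =>
    (VS n ∩ A).filter (fun j => Nat.Coprime (B i) j ∧ Nat.Coprime j (B (i + 1)))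
  have hres : HasCyc A (s + J.card) := by
    apply builder_rank s B J S (fun _ => (0 : ℕ)) (by omega)
    · intro i hi
      exact Finset.mem_range.mp (hJs hi)
    · intro i hi
      exact (Finset.mem_inter.mp (hBX i (by omega))).1
    · exact hBinj
    · exact hBs
    · intro i hi hiJ
      by_contra hcon
      exact hiJ (hJ0J (by rw [hJ0, Finset.mem_filter, Finset.mem_range]; exact ⟨hi, hcon⟩))
    · intro i hi x hx
      exact (Finset.mem_inter.mp (Finset.mem_filter.mp hx).1).2
    · intro i hi x hx j hj hxj
      have h1 := (Finset.mem_inter.mp (Finset.mem_filter.mp hx).1).1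
      have h2 := hXsub (hBX j (by omega))
      rw [← hxj] at h2
      exact (Finset.disjoint_left.mp (US_disj_VS n)) h2 h1
    · intro i hi x hx
      exact (Finset.mem_filter.mp hx).2
    · intro i hi
      have his : i < s := Finset.mem_range.mp (hJs hi)
      have h1 : (J.filter (fun _ => (0 : ℕ) ≤ 0)).card ≤ J.card := Finset.card_filter_le _ _
      have h3 : (US n).card ≤ ((VS n).filter
          (fun j => Nat.Coprime (B i) j ∧ Nat.Coprime j (B (i + 1)))).card :=
        hP1 _ (hXsub (hBX i (by omega))) _ (hXsub (hBX (i + 1) (by omega)))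
      have h4 := card_filter_inter (VS n) A
        (fun j => Nat.Coprime (B i) j ∧ Nat.Coprime j (B (i + 1)))
      simp only [S]
      omega
  have : s + J.card = 2 * K + 1 := by omega
  rw [this] at hres
  exact hres

/-- All cases, from the pair conditions. -/
theorem ofPairs {n K : ℕ} {A : Finset ℕ} (hA : A ⊆ Finset.Icc 1 n)
    (hc : A.card = n / 2 + n / 3 - n / 6 + 1) (hK : 1 ≤ K) (hK2 : 2 * K ≤ n / 3)
    (hP1 : PairU n) (hP2 : PairT n) : HasCyc A (2 * K + 1) := by
  rcases Nat.lt_or_ge (US n).card ((A ∩ US n).card + K) with h | h
  · exact caseII hA hc hK hK2 hP1 h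
  · exact caseI hA hc hK hK2 hP1 hP2 h

end Pool.Agent.H15.CG
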