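import Mathlib
import Pool.Agent.H15.CG.Basic

/-!
# Counting with sieving primes at least 5: Legendre recursion and replacement
-/

set_option autoImplicit false

namespace Pool.Agent.H15.CG

/-- The number of `j ≤ n` with property `p` and not divisible by any member of `D`. -/
def cnt (p : ℕ → Prop) [DecidablePred p] (D : Finset ℕ) (n : ℕ) : ℕ :=
  ((Finset.Icc 1 n).filter (fun j => p j ∧ ∀ q ∈ D, ¬ q ∣ j)).card

section
variable (p : ℕ → Prop) [DecidablePred p]

theorem cnt_mono_n (D : Finset ℕ) {m n : ℕ} (h : m ≤ n) : cnt p D m ≤ cnt p D n := by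
  apply Finset.card_le_card
  intro x hx
  simp only [Finset.mem_filter, Finset.mem_Icc] at hx ⊢
  exact ⟨⟨hx.1.1, hx.1.2.trans h⟩, hx.2⟩

theorem cnt_anti_D {D E : Finset ℕ} (h : D ⊆ E) (n : ℕ) : cnt p E n ≤ cnt p D n := by
  apply Finset.card_le_card
  intro x hx
  simp only [Finset.mem_filter] at hx ⊢
  exact ⟨hx.1, hx.2.1, fun q hq => hx.2.2 q (h hq)⟩

/-- Legendre recursion -/
theorem cnt_insert {D : Finset ℕ} {q : ℕ} (hq : q.Prime) (hD : ∀ r ∈ D, r.Prime)
    (hqD : q ∉ D) (hp : ∀ j, p (q * j) ↔ p j) (n : ℕ) :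
    cnt p (insert q D) n + cnt p D (n / q) = cnt p D n := by
  classical
  have hqpos : 0 < q := hq.pos
  have hsplit : (Finset.Icc 1 n).filter (fun j => p j ∧ ∀ r ∈ D, ¬ r ∣ j) =
      (Finset.Icc 1 n).filter (fun j => p j ∧ ∀ r ∈ insert q D, ¬ r ∣ j) ∪
      ((Finset.Icc 1 (n / q)).filter (fun j => p j ∧ ∀ r ∈ D, ¬ r ∣ j)).image (fun j => q * j) := by
    ext x
    simp only [Finset.mem_union, Finset.mem_image, Finset.mem_filter, Finset.mem_Icc,
      Finset.mem_insert, forall_eq_or_imp]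
    constructor
    · rintro ⟨⟨h1, h2⟩, h3, h4⟩
      by_cases hx : q ∣ x
      · right
        obtain ⟨k, rfl⟩ := hx
        refine ⟨k, ⟨⟨?_, ?_⟩, (hp k).mp h3, ?_⟩, rfl⟩
        · rcases Nat.eq_zero_or_pos k with rfl | hk
          · simp at h1
          · exact hk
        · rw [Nat.le_div_iff_mul_le hqpos, Nat.mul_comm]
          exact h2
        · intro r hr hrk
          exact h4 r hr (Dvd.dvd.mul_left hrk q)
      · left
        exact ⟨⟨h1, h2⟩, h3, hx, h4⟩
    · rintro (⟨⟨h1, h2⟩, h3, h4, h5⟩ | ⟨k, ⟨⟨h1, h2⟩, h3, h4⟩, rfl⟩)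
      · exact ⟨⟨h1, h2⟩, h3, h5⟩
      · refine ⟨⟨?_, ?_⟩, (hp k).mpr h3, ?_⟩
        · exact Nat.succ_le_of_lt (Nat.mul_pos hqpos (by omega))
        · rw [Nat.le_div_iff_mul_le hqpos, Nat.mul_comm] at h2
          exact h2
        · intro r hr hrk
          rcases (Nat.Prime.dvd_mul (hD r hr)).mp hrk with h | h
          · have := (Nat.prime_dvd_prime_iff_eq (hD r hr) hq).mp h
            subst this
            exact hqD hr
          · exact h4 r hr h
  have hdisj : Disjoint ((Finset.Icc 1 n).filter (fun j => p j ∧ ∀ r ∈ insert q D, ¬ r ∣ j))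
      (((Finset.Icc 1 (n / q)).filter (fun j => p j ∧ ∀ r ∈ D, ¬ r ∣ j)).image
        (fun j => q * j)) := by
    rw [Finset.disjoint_left]
    intro x hx hy
    simp only [Finset.mem_filter, Finset.mem_insert, forall_eq_or_imp] at hx
    rw [Finset.mem_image] at hy
    obtain ⟨k, _, rfl⟩ := hy
    exact hx.2.2.1 (Dvd.intro k rfl)
  unfold cnt
  rw [hsplit, Finset.card_union_of_disjoint hdisj, Finset.card_image_of_injective]
  intro a b hab
  exact Nat.eq_of_mul_eq_mul_left hqpos hab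

/-- Replacing a prime by a smaller one lowers the count. -/
theorem cnt_replace {D : Finset ℕ} {q q' : ℕ} (hq : q.Prime) (hq' : q'.Prime)
    (hD : ∀ r ∈ D, r.Prime) (hqD : q ∉ D) (hq'D : q' ∉ D) (hp : ∀ j, p (q * j) ↔ p j)
    (hp' : ∀ j, p (q' * j) ↔ p j) (hlt : q < q') (n : ℕ) :
    cnt p (insert q D) n ≤ cnt p (insert q' D) n := by
  have h1 := cnt_insert p hq hD hqD hp n
  have h2 := cnt_insert p hq' hD hq'D hp' n
  have h3 : cnt p D (n / q') ≤ cnt p D (n / q) :=
    cnt_mono_n p D (Nat.div_le_div_left hlt.le hq.pos)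
  omega

/-- Every set of primes at least 5 can be replaced by a downward closed one with smaller
product and smaller counts. -/
theorem exists_down (hp : ∀ q, q.Prime → 5 ≤ q → ∀ j, p (q * j) ↔ p j) :
    ∀ (m : ℕ) (D : Finset ℕ), (∀ q ∈ D, q.Prime ∧ 5 ≤ q) → D.sum id = m →
    ∃ E : Finset ℕ, (∀ q ∈ E, q.Prime ∧ 5 ≤ q) ∧
      (∀ q ∈ E, ∀ r, r.Prime → 5 ≤ r → r < q → r ∈ E) ∧
      E.prod id ≤ D.prod id ∧ ∀ n, cnt p E n ≤ cnt p D n := by
  intro m
  induction m using Nat.strong_induction_on with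
  | _ m ih =>
    intro D hD hsum
    by_cases hdc : ∀ q ∈ D, ∀ r, r.Prime → 5 ≤ r → r < q → r ∈ D
    · exact ⟨D, hD, hdc, le_rfl, fun n => le_rfl⟩
    · push Not at hdc
      obtain ⟨q', hq'D, q, hq, hq5, hlt, hqD⟩ := hdc
      have hq'p := hD q' hq'D
      set D0 := D.erase q' with hD0
      have hDe : D = insert q' D0 := by rw [hD0, Finset.insert_erase hq'D]
      have hq'0 : q' ∉ D0 := by rw [hD0]; simp
      have hq0 : q ∉ D0 := by
        rw [hD0, Finset.mem_erase]
        exact fun h => hqD h.2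
      have hD0p : ∀ r ∈ D0, r.Prime ∧ 5 ≤ r := fun r hr => hD r (Finset.mem_of_mem_erase hr)
      have hs1 : D.sum id = q' + D0.sum id := by
        rw [hDe, Finset.sum_insert hq'0]; rfl
      have hs2 : (insert q D0).sum id = q + D0.sum id := by
        rw [Finset.sum_insert hq0]; rfl
      have hp1 : D.prod id = q' * D0.prod id := by
        rw [hDe, Finset.prod_insert hq'0]; rfl
      have hp2 : (insert q D0).prod id = q * D0.prod id := by
        rw [Finset.prod_insert hq0]; rfl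
      obtain ⟨E, hE1, hE2, hE3, hE4⟩ := ih ((insert q D0).sum id) (by omega) (insert q D0)
        (by
          intro r hr
          rw [Finset.mem_insert] at hr
          rcases hr with rfl | hr
          · exact ⟨hq, hq5⟩
          · exact hD0p r hr) rfl
      refine ⟨E, hE1, hE2, ?_, ?_⟩
      · refine hE3.trans ?_
        rw [hp1, hp2]
        exact Nat.mul_le_mul_right _ hlt.le
      · intro n
        refine (hE4 n).trans ?_
        rw [hDe]
        exact cnt_replace p hq hq'p.1 (fun r hr => (hD0p r hr).1) hq0 hq'0 (hp q hq hq5)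
          (hp q' hq'p.1 hq'p.2) hlt n

end

/-- The Legendre sum as a recursive function. -/
def leg (f : ℕ → ℕ) : List ℕ → ℕ → ℕ
  | [], n => f n
  | q :: l, n => leg f l n - leg f l (n / q)

theorem cnt_eq_leg (p : ℕ → Prop) [DecidablePred p] (f : ℕ → ℕ)
    (hf : ∀ n, ((Finset.Icc 1 n).filter p).card = f n)
    (hp : ∀ q, q.Prime → 5 ≤ q → ∀ j, p (q * j) ↔ p j) (l : List ℕ) (hnd : l.Nodup)
    (hl : ∀ q ∈ l, q.Prime ∧ 5 ≤ q) (n : ℕ) : cnt p l.toFinset n = leg f l n := by
  induction l generalizing n with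
  | nil =>
    rw [leg, ← hf]
    simp [cnt]
  | cons q l ih =>
    rw [List.nodup_cons] at hnd
    have hl' : ∀ r ∈ l, r.Prime ∧ 5 ≤ r := fun r hr => hl r (List.mem_cons_of_mem _ hr)
    have hq := hl q (List.mem_cons_self)
    have h1 := cnt_insert p (D := l.toFinset) hq.1
      (fun r hr => (hl' r (List.mem_toFinset.mp hr)).1)
      (fun h => hnd.1 (List.mem_toFinset.mp h)) (hp q hq.1 hq.2) n
    rw [leg, List.toFinset_cons, ← ih hnd.2 hl', ← ih hnd.2 hl']
    omega

/-- A downward closed set of primes with small product is contained in an initial segment. -/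
theorem down_subset {E : Finset ℕ} (hE : ∀ q ∈ E, q.Prime ∧ 5 ≤ q)
    (hdc : ∀ q ∈ E, ∀ r, r.Prime → 5 ≤ r → r < q → r ∈ E)
    (I : Finset ℕ) (P : ℕ) (hI : ∀ r ∈ insert P I, r.Prime ∧ 5 ≤ r ∧ r ≤ P)
    (hnext : ∀ q, q.Prime → 5 ≤ q → q < P → q ∈ I)
    (hprod : E.prod id < (insert P I).prod id) : E ⊆ I := by
  classical
  by_contra hcon
  obtain ⟨q, hqE, hqI⟩ := Finset.not_subset.mp hcon
  have hq := hE q hqE
  have hPq : P ≤ q := by
    by_contra h
    exact hqI (hnext q hq.1 hq.2 (by omega))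
  have hsub : insert P I ⊆ E := by
    intro r hr
    have h1 := hI r hr
    rcases Nat.lt_or_ge r q with h | h
    · exact hdc q hqE r h1.1 h1.2.1 h
    · have : r = q := by omega
      rw [this]; exact hqE
  have : (insert P I).prod id ≤ E.prod id := by
    apply Finset.prod_le_prod_of_subset_of_one_le' hsub
    intro i hi _
    have := (hE i hi).2
    simp only [id]
    omega
  omega

end Pool.Agent.H15.CG
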