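import Mathlib
import Pool.Agent.H15.CG.Count

/-!
# The pair conditions for `6 ≤ n ≤ 6097`
-/

set_option autoImplicit false

namespace Pool.Agent.H15.CG

def fV (n : ℕ) : ℕ := n / 2 + n / 3 - n / 6
def fE (n : ℕ) : ℕ := (n + 4) / 6 + (n + 2) / 6

theorem prime5_mod {q : ℕ} (hq : q.Prime) (h5 : 5 ≤ q) : q % 6 = 1 ∨ q % 6 = 5 := by
  have h2 : ¬ 2 ∣ q := by
    intro h
    have := (Nat.prime_dvd_prime_iff_eq Nat.prime_two hq).mp h
    omega
  have h3 : ¬ 3 ∣ q := by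
    intro h
    have := (Nat.prime_dvd_prime_iff_eq Nat.prime_three hq).mp h
    omega
  omega

theorem hpV : ∀ q, q.Prime → 5 ≤ q → ∀ j, (¬ Nat.Coprime (q * j) 6) ↔ ¬ Nat.Coprime j 6 := by
  intro q hq h5 j
  have h := prime5_mod hq h5
  have hc : Nat.Coprime q 6 := (coprime_six_iff q).mpr h
  rw [Nat.coprime_mul_iff_left, and_iff_right hc]

theorem hpE : ∀ q, q.Prime → 5 ≤ q → ∀ j,
    ((q * j) % 6 = 2 ∨ (q * j) % 6 = 4) ↔ (j % 6 = 2 ∨ j % 6 = 4) := by
  intro q hq h5 j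
  have h := prime5_mod hq h5
  have hj : j % 6 < 6 := Nat.mod_lt _ (by norm_num)
  rw [Nat.mul_mod]
  rcases h with h | h <;> rw [h] <;> interval_cases (j % 6) <;> simp

/-- primes at least 5 dividing `a * b` -/
def PD (a b : ℕ) : Finset ℕ := (a * b).primeFactors.filter (fun q => 5 ≤ q)

theorem mem_PD {a b q : ℕ} (h : q ∈ PD a b) : q.Prime ∧ 5 ≤ q := by
  unfold PD at h
  rw [Finset.mem_filter, Nat.mem_primeFactors] at h
  exact ⟨h.1.1, h.2⟩

theorem PD_prod_le {a b : ℕ} (h : 0 < a * b) : (PD a b).prod id ≤ a * b := by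
  have h1 : (PD a b).prod id ∣ ∏ q ∈ (a * b).primeFactors, q := by
    have := Finset.prod_dvd_prod_of_subset (PD a b) (a * b).primeFactors id
      (Finset.filter_subset _ _)
    simpa using this
  exact Nat.le_of_dvd h (h1.trans (Nat.prod_primeFactors_dvd _))

theorem PD_prod_le3 {a b : ℕ} (h : 0 < a * b) (h3 : 3 ∣ a ∨ 3 ∣ b) :
    3 * (PD a b).prod id ≤ a * b := by
  have h3' : 3 ∈ (a * b).primeFactors := by
    rw [Nat.mem_primeFactors]
    refine ⟨Nat.prime_three, ?_, by omega⟩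
    rcases h3 with h3 | h3
    · exact Dvd.dvd.mul_right h3 b
    · exact Dvd.dvd.mul_left h3 a
  have hni : 3 ∉ PD a b := by
    intro hcon
    have := (mem_PD hcon).2
    omega
  have h1 : 3 * (PD a b).prod id ∣ ∏ q ∈ (a * b).primeFactors, q := by
    have e : 3 * (PD a b).prod id = (insert 3 (PD a b)).prod id := by
      rw [Finset.prod_insert hni]; rfl
    rw [e]
    have := Finset.prod_dvd_prod_of_subset (insert 3 (PD a b)) (a * b).primeFactors id (by
      intro x hx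
      rw [Finset.mem_insert] at hx
      rcases hx with rfl | hx
      · exact h3'
      · exact (Finset.mem_filter.mp hx).1)
    simpa using this
  exact Nat.le_of_dvd h (h1.trans (Nat.prod_primeFactors_dvd _))

theorem coprime_of_PD {a b j : ℕ} (ha0 : a ≠ 0) (hb0 : b ≠ 0)
    (h2 : ¬ (2 ∣ a ∧ 2 ∣ j)) (h3 : ¬ (3 ∣ a ∧ 3 ∣ j)) (h2b : ¬ (2 ∣ b ∧ 2 ∣ j))
    (h3b : ¬ (3 ∣ b ∧ 3 ∣ j)) (hj : ∀ q ∈ PD a b, ¬ q ∣ j) :
    Nat.Coprime a j ∧ Nat.Coprime j b := by
  have key : ∀ q, q.Prime → (q ∣ a ∨ q ∣ b) → 5 ≤ q → ¬ q ∣ j := by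
    intro q hq hab h5
    apply hj
    unfold PD
    rw [Finset.mem_filter, Nat.mem_primeFactors]
    refine ⟨⟨hq, ?_, Nat.mul_ne_zero ha0 hb0⟩, h5⟩
    rcases hab with h | h
    · exact Dvd.dvd.mul_right h b
    · exact Dvd.dvd.mul_left h a
  have h5 : ∀ q, q.Prime → q ≠ 2 → q ≠ 3 → 5 ≤ q := by
    intro q hq hq2 hq3
    have := hq.two_le
    by_contra hcon
    have : q = 4 := by omega
    subst this
    revert hq
    decide
  constructor
  · apply Nat.Coprime.symm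
    rw [Nat.coprime_comm]
    apply Nat.coprime_of_dvd
    intro q hq hqa hqj
    by_cases e2 : q = 2
    · subst e2; exact h2 ⟨hqa, hqj⟩
    · by_cases e3 : q = 3
      · subst e3; exact h3 ⟨hqa, hqj⟩
      · exact key q hq (Or.inl hqa) (h5 q hq e2 e3) hqj
  · apply Nat.coprime_of_dvd
    intro q hq hqj hqb
    by_cases e2 : q = 2
    · subst e2; exact h2b ⟨hqb, hqj⟩
    · by_cases e3 : q = 3
      · subst e3; exact h3b ⟨hqb, hqj⟩
      · exact key q hq (Or.inr hqb) (h5 q hq e2 e3) hqj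

/-- abstract comparison with the initial segment -/
theorem seg_le_cnt (p : ℕ → Prop) [DecidablePred p]
    (f : ℕ → ℕ) (hf : ∀ n, ((Finset.Icc 1 n).filter p).card = f n)
    (hp : ∀ q, q.Prime → 5 ≤ q → ∀ j, p (q * j) ↔ p j)
    (D : Finset ℕ) (hD : ∀ q ∈ D, q.Prime ∧ 5 ≤ q) (l : List ℕ) (P : ℕ) (hnd : l.Nodup)
    (hl : ∀ q ∈ l, q.Prime ∧ 5 ≤ q ∧ q ≤ P) (hP : P.Prime ∧ 5 ≤ P)
    (hnext : ∀ q, q.Prime → 5 ≤ q → q < P → q ∈ l)
    (hprod : D.prod id < (insert P l.toFinset).prod id) (n : ℕ) :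
    leg f l n ≤ cnt p D n := by
  obtain ⟨E, hE1, hE2, hE3, hE4⟩ := exists_down p hp _ D hD rfl
  have hsub : E ⊆ l.toFinset := by
    apply down_subset hE1 hE2 l.toFinset P
    · intro r hr
      rw [Finset.mem_insert, List.mem_toFinset] at hr
      rcases hr with rfl | hr
      · exact ⟨hP.1, hP.2, le_rfl⟩
      · exact hl r hr
    · intro q hq h5 hqP
      exact List.mem_toFinset.mpr (hnext q hq h5 hqP)
    · omega
  have h1 := cnt_eq_leg p f hf hp l hnd (fun q hq => ⟨(hl q hq).1, (hl q hq).2.1⟩) n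
  rw [← h1]
  exact (cnt_anti_D p hsub n).trans (hE4 n)

theorem pairU_of {n : ℕ} (l : List ℕ) (P : ℕ) (hnd : l.Nodup)
    (hl : ∀ q ∈ l, q.Prime ∧ 5 ≤ q ∧ q ≤ P) (hP : P.Prime ∧ 5 ≤ P)
    (hnext : ∀ q, q.Prime → 5 ≤ q → q < P → q ∈ l)
    (hprod : n * n < (insert P l.toFinset).prod id)
    (hchk : (US n).card ≤ leg fV l n) : PairU n := by
  intro a ha b hb
  rw [mem_US] at ha hb
  have hab : 0 < a * b := Nat.mul_pos (by omega) (by omega)
  have hle : a * b ≤ n * n := Nat.mul_le_mul ha.2.1 hb.2.1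
  have h1 := seg_le_cnt (fun j => ¬ Nat.Coprime j 6) fV card_VS hpV (PD a b)
    (fun q hq => mem_PD hq) l P hnd hl hP hnext
    (lt_of_le_of_lt ((PD_prod_le hab).trans hle) hprod) n
  refine (hchk.trans h1).trans ?_
  apply Finset.card_le_card
  intro j hj
  simp only [Finset.mem_filter, VS] at hj ⊢
  refine ⟨⟨hj.1, hj.2.1⟩, ?_⟩
  apply coprime_of_PD (by omega) (by omega) (by omega) (by omega) (by omega) (by omega) hj.2.2

theorem pairT_of {n : ℕ} (l : List ℕ) (P : ℕ) (hnd : l.Nodup)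
    (hl : ∀ q ∈ l, q.Prime ∧ 5 ≤ q ∧ q ≤ P) (hP : P.Prime ∧ 5 ≤ P)
    (hnext : ∀ q, q.Prime → 5 ≤ q → q < P → q ∈ l)
    (hprod : n * n < 3 * (insert P l.toFinset).prod id)
    (hchk : n / 6 + 1 ≤ leg fE l n) : PairT n := by
  intro a ha b hb h3
  rw [Finset.mem_union, mem_US, mem_TS] at ha hb
  have hab : 0 < a * b := Nat.mul_pos (by omega) (by omega)
  have hle : a * b ≤ n * n := Nat.mul_le_mul (by omega) (by omega)
  have h0 := PD_prod_le3 hab h3
  have h1 := seg_le_cnt (fun j => j % 6 = 2 ∨ j % 6 = 4) fE card_ES hpE (PD a b)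
    (fun q hq => mem_PD hq) l P hnd hl hP hnext (by omega) n
  refine (hchk.trans h1).trans ?_
  apply Finset.card_le_card
  intro j hj
  simp only [Finset.mem_filter, ES] at hj ⊢
  refine ⟨⟨hj.1, hj.2.1⟩, ?_⟩
  have hj6 := hj.2.1
  apply coprime_of_PD (by omega) (by omega) (by omega) (by omega) (by omega) (by omega) hj.2.2

end Pool.Agent.H15.CG
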