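import Mathlib
import Pool.Agent.H15.CG.Pairs

/-!
# Finite verification of the pair conditions for `6 ≤ n ≤ 6097`
-/

set_option autoImplicit false

namespace Pool.Agent.H15.CG

/-- check `g (lo + st*i + (st-1)) ≤ leg f l (lo + st*i)` for all `i < len` -/
def chk (g f : ℕ → ℕ) (l : List ℕ) (lo st len : ℕ) : Bool :=
  (List.range len).all (fun i => Nat.ble (g (lo + st * i + (st - 1))) (leg f l (lo + st * i)))

theorem chk_spec {g f : ℕ → ℕ} {l : List ℕ} {lo st len : ℕ} (hst : 0 < st)
    (hg : ∀ a b, a ≤ b → g a ≤ g b) (hf : ∀ a b, a ≤ b → leg f l a ≤ leg f l b)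
    (h : chk g f l lo st len = true) (n : ℕ) (hlo : lo ≤ n) (hhi : n < lo + st * len) :
    g n ≤ leg f l n := by
  unfold chk at h
  rw [List.all_eq_true] at h
  set i := (n - lo) / st with hi
  have hdm := Nat.div_add_mod (n - lo) st
  have hml := Nat.mod_lt (n - lo) hst
  have hilt : i < len := by
    rw [hi, Nat.div_lt_iff_lt_mul hst, Nat.mul_comm]
    omega
  have h1 := Nat.le_of_ble_eq_true (h i (List.mem_range.mpr hilt))
  rw [← hi] at hdm
  calc g n ≤ g (lo + st * i + (st - 1)) := hg _ _ (by omega)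
    _ ≤ leg f l (lo + st * i) := h1
    _ ≤ leg f l n := hf _ _ (by omega)

def gU (n : ℕ) : ℕ := n - (n / 2 + n / 3 - n / 6)
def gT (n : ℕ) : ℕ := n / 6 + 1

theorem gU_eq (n : ℕ) : gU n = (US n).card := by
  have := card_US n
  unfold gU
  omega

theorem gU_mono (a b : ℕ) (h : a ≤ b) : gU a ≤ gU b := by
  rw [gU_eq, gU_eq]
  apply Finset.card_le_card
  intro x hx
  rw [mem_US] at hx ⊢
  omega

theorem gT_mono (a b : ℕ) (h : a ≤ b) : gT a ≤ gT b := by
  unfold gT
  omega

theorem leg_mono (p : ℕ → Prop) [DecidablePred p] (f : ℕ → ℕ)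
    (hf : ∀ n, ((Finset.Icc 1 n).filter p).card = f n)
    (hp : ∀ q, q.Prime → 5 ≤ q → ∀ j, p (q * j) ↔ p j) (l : List ℕ) (hnd : l.Nodup)
    (hl : ∀ q ∈ l, q.Prime ∧ 5 ≤ q) (a b : ℕ) (h : a ≤ b) : leg f l a ≤ leg f l b := by
  rw [← cnt_eq_leg p f hf hp l hnd hl, ← cnt_eq_leg p f hf hp l hnd hl]
  exact cnt_mono_n p _ h

theorem cU2 : chk gU fV [7, 5] 6 1 14 = true := by decide +kernel
theorem cU3 : chk gU fV [11, 7, 5] 20 1 51 = true := by decide +kernel
theorem cU4 : chk gU fV [13, 11, 7, 5] 71 1 221 = true := by decide +kernel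
theorem cU5 : chk gU fV [17, 13, 11, 7, 5] 292 2 490 = true := by decide +kernel
theorem cU6 : chk gU fV [19, 17, 13, 11, 7, 5] 1272 8 603 = true := by decide +kernel
theorem cU7 : chk gU fV [19, 17, 13, 11, 7, 5] 6096 1 2 = true := by decide +kernel

theorem cT1 : chk gT fE [5] 6 1 5 = true := by decide +kernel
theorem cT2 : chk gT fE [7, 5] 11 1 23 = true := by decide +kernel
theorem cT3 : chk gT fE [11, 7, 5] 34 1 89 = true := by decide +kernel
theorem cT4 : chk gT fE [13, 11, 7, 5] 123 1 383 = true := by decide +kernel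
theorem cT5 : chk gT fE [17, 13, 11, 7, 5] 506 4 424 = true := by decide +kernel
theorem cT6 : chk gT fE [19, 17, 13, 11, 7, 5] 2202 8 487 = true := by decide +kernel

theorem hnext_of (l : List ℕ) (P : ℕ) (h : ∀ q < P, 5 ≤ q → q.Prime → q ∈ l) :
    ∀ q, q.Prime → 5 ≤ q → q < P → q ∈ l := fun q hq h5 hP => h q hP h5 hq

theorem pairU_small {n : ℕ} (h6 : 6 ≤ n) (hn : n ≤ 6097) : PairU n := by
  have key : ∀ (l : List ℕ) (lo st len P : ℕ), l.Nodup →
      (∀ q ∈ l, q.Prime ∧ 5 ≤ q ∧ q ≤ P) → (P.Prime ∧ 5 ≤ P) →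
      (∀ q < P, 5 ≤ q → q.Prime → q ∈ l) →
      (lo + st * len - 1) * (lo + st * len - 1) < (insert P l.toFinset).prod id →
      0 < st → chk gU fV l lo st len = true → lo ≤ n → n < lo + st * len → PairU n := by
    intro l lo st len P hnd hl hP hnext hprod hst hchk h1 h2
    apply pairU_of l P hnd hl hP (hnext_of l P hnext)
    · exact lt_of_le_of_lt (Nat.mul_le_mul (by omega) (by omega)) hprod
    · rw [← gU_eq]
      exact chk_spec hst gU_mono (leg_mono _ fV card_VS hpV l hnd
        (fun q hq => ⟨(hl q hq).1, (hl q hq).2.1⟩)) hchk n h1 h2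
  rcases Nat.lt_or_ge n 20 with h | h
  · exact key [7, 5] 6 1 14 11 (by decide) (by decide) (by decide) (by decide) (by decide)
      (by decide) cU2 (by omega) (by omega)
  rcases Nat.lt_or_ge n 71 with h' | h'
  · exact key [11, 7, 5] 20 1 51 13 (by decide) (by decide) (by decide) (by decide) (by decide)
      (by decide) cU3 (by omega) (by omega)
  rcases Nat.lt_or_ge n 292 with h'' | h''
  · exact key [13, 11, 7, 5] 71 1 221 17 (by decide) (by decide) (by decide) (by decide)
      (by decide) (by decide) cU4 (by omega) (by omega)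
  rcases Nat.lt_or_ge n 1272 with h''' | h'''
  · exact key [17, 13, 11, 7, 5] 292 2 490 19 (by decide) (by decide) (by decide) (by decide)
      (by decide) (by decide) cU5 (by omega) (by omega)
  rcases Nat.lt_or_ge n 6096 with h4 | h4
  · exact key [19, 17, 13, 11, 7, 5] 1272 8 603 23 (by decide) (by decide) (by decide) (by decide)
      (by decide) (by decide) cU6 (by omega) (by omega)
  · exact key [19, 17, 13, 11, 7, 5] 6096 1 2 23 (by decide) (by decide) (by decide) (by decide)
      (by decide) (by decide) cU7 (by omega) (by omega)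

theorem pairT_small {n : ℕ} (h6 : 6 ≤ n) (hn : n ≤ 6097) : PairT n := by
  have key : ∀ (l : List ℕ) (lo st len P : ℕ), l.Nodup →
      (∀ q ∈ l, q.Prime ∧ 5 ≤ q ∧ q ≤ P) → (P.Prime ∧ 5 ≤ P) →
      (∀ q < P, 5 ≤ q → q.Prime → q ∈ l) →
      (lo + st * len - 1) * (lo + st * len - 1) < 3 * (insert P l.toFinset).prod id →
      0 < st → chk gT fE l lo st len = true → lo ≤ n → n < lo + st * len → PairT n := by
    intro l lo st len P hnd hl hP hnext hprod hst hchk h1 h2
    apply pairT_of l P hnd hl hP (hnext_of l P hnext)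
    · exact lt_of_le_of_lt (Nat.mul_le_mul (by omega) (by omega)) hprod
    · exact chk_spec hst gT_mono (leg_mono _ fE card_ES hpE l hnd
        (fun q hq => ⟨(hl q hq).1, (hl q hq).2.1⟩)) hchk n h1 h2
  rcases Nat.lt_or_ge n 11 with h | h
  · exact key [5] 6 1 5 7 (by decide) (by decide) (by decide) (by decide) (by decide)
      (by decide) cT1 (by omega) (by omega)
  rcases Nat.lt_or_ge n 34 with h1 | h1
  · exact key [7, 5] 11 1 23 11 (by decide) (by decide) (by decide) (by decide) (by decide)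
      (by decide) cT2 (by omega) (by omega)
  rcases Nat.lt_or_ge n 123 with h2 | h2
  · exact key [11, 7, 5] 34 1 89 13 (by decide) (by decide) (by decide) (by decide) (by decide)
      (by decide) cT3 (by omega) (by omega)
  rcases Nat.lt_or_ge n 506 with h3 | h3
  · exact key [13, 11, 7, 5] 123 1 383 17 (by decide) (by decide) (by decide) (by decide)
      (by decide) (by decide) cT4 (by omega) (by omega)
  rcases Nat.lt_or_ge n 2202 with h4 | h4
  · exact key [17, 13, 11, 7, 5] 506 4 424 19 (by decide) (by decide) (by decide) (by decide)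
      (by decide) (by decide) cT5 (by omega) (by omega)
  · exact key [19, 17, 13, 11, 7, 5] 2202 8 487 23 (by decide) (by decide) (by decide) (by decide)
      (by decide) (by decide) cT6 (by omega) (by omega)

end Pool.Agent.H15.CG
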