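import Mathlib
import Pool.Agent.H15.CG.CaseI
import Pool.Agent.H15.CG.Pairs
import Pool.Agent.H2.Cop.Second

/-!
# Candidate counts for large `n`
-/

set_option autoImplicit false

namespace Pool.Agent.H15.CG

open Finset Pool.Agent.H2.Cop

/-- The Legendre error is a small fraction of the main term. -/
theorem eta {n : ℕ} (hn : 6098 ≤ n) (P : Finset ℕ) (hP : ∀ p ∈ P, p.Prime)
    (h5 : ∀ p ∈ P, 5 ≤ p) (hprod : ∏ p ∈ P, p ≤ n * n) :
    (2 : ℝ) ^ P.card ≤ 0.043 * n * dens P := by
  have hnR : (6098 : ℝ) ≤ n := by exact_mod_cast hn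
  have hd0 := dens_pos P hP
  rcases Nat.lt_or_ge 6 P.card with h7 | h6
  · rcases Nat.lt_or_ge 7 P.card with h8 | h7'
    · rcases Nat.lt_or_ge 8 P.card with h9 | h8'
      · -- at least 9 primes
        have h1 := two_pow_card_pow_four P hP h5
        have h2 := dens_inv_pow P hP h5
        have hprodR : (∏ p ∈ P, (p : ℝ)) ≤ (n : ℝ) ^ 2 := by
          have : ((∏ p ∈ P, p : ℕ) : ℝ) ≤ ((n * n : ℕ) : ℝ) := by exact_mod_cast hprod
          push_cast at this
          rw [sq]; exact this
        have hpp : (0 : ℝ) < ∏ p ∈ P, (p : ℝ) :=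
          Finset.prod_pos (fun p hp => by exact_mod_cast (hP p hp).pos)
        -- n ≥ 37200 from 9 primes
        have hbig : 100000 ≤ n := by
          by_contra hcon
          push Not at hcon
          have := card_lt_of_prod_lt 9 (by norm_num) P hP h5 (by
            refine lt_of_le_of_lt hprod ?_
            have : n * n ≤ 99999 * 99999 := Nat.mul_le_mul (by omega) (by omega)
            refine lt_of_le_of_lt this ?_
            simp only [Finset.prod_range_succ, Finset.prod_range_zero, L5]
            norm_num)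
          omega
        have hbigR : (100000 : ℝ) ≤ n := by exact_mod_cast hbig
        by_contra hcon
        push Not at hcon
        -- (0.043 n)^16 < (2^k / dens)^16 ≤ 13.1^4 * n^8 * 12.3 * n^2
        have h3 : 0.043 * n < (2 : ℝ) ^ P.card * (dens P)⁻¹ := by
          rw [← div_eq_mul_inv, lt_div_iff₀ hd0]
          exact hcon
        have h4 : (0.043 * (n : ℝ)) ^ 16 < ((2 : ℝ) ^ P.card * (dens P)⁻¹) ^ 16 :=
          pow_lt_pow_left₀ h3 (by positivity) (by norm_num)
        have h5' : ((2 : ℝ) ^ P.card) ^ 16 ≤ (13.1 * (n : ℝ) ^ 2) ^ 4 := by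
          calc ((2 : ℝ) ^ P.card) ^ 16 = (((2 : ℝ) ^ P.card) ^ 4) ^ 4 := by ring
            _ ≤ (13.1 * ∏ p ∈ P, (p : ℝ)) ^ 4 := pow_le_pow_left₀ (by positivity) h1 4
            _ ≤ _ := by
              apply pow_le_pow_left₀ (by positivity)
              exact mul_le_mul_of_nonneg_left hprodR (by norm_num)
        have h6' : ((dens P)⁻¹) ^ 16 ≤ 12.3 * (n : ℝ) ^ 2 := by
          refine h2.trans ?_
          exact mul_le_mul_of_nonneg_left hprodR (by norm_num)
        have h7'' : ((2 : ℝ) ^ P.card * (dens P)⁻¹) ^ 16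
            ≤ (13.1 * (n : ℝ) ^ 2) ^ 4 * (12.3 * (n : ℝ) ^ 2) := by
          rw [mul_pow]
          exact mul_le_mul h5' h6' (by positivity) (by positivity)
        have h8 : (0.043 * (n : ℝ)) ^ 16 < (13.1 * (n : ℝ) ^ 2) ^ 4 * (12.3 * (n : ℝ) ^ 2) :=
          lt_of_lt_of_le h4 h7''
        have e1 : (0.043 * (n : ℝ)) ^ 16 = (0.043 ^ 16 * (n : ℝ) ^ 6) * (n : ℝ) ^ 10 := by ring
        have e2 : (13.1 * (n : ℝ) ^ 2) ^ 4 * (12.3 * (n : ℝ) ^ 2)
            = (13.1 ^ 4 * 12.3) * (n : ℝ) ^ 10 := by ring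
        rw [e1, e2] at h8
        have hn10 : (0 : ℝ) < (n : ℝ) ^ 10 := by positivity
        have h9' := lt_of_mul_lt_mul_right h8 hn10.le
        have h10 : (100000 : ℝ) ^ 6 ≤ (n : ℝ) ^ 6 := pow_le_pow_left₀ (by norm_num) hbigR 6
        have h11 : (0.043 : ℝ) ^ 16 * 100000 ^ 6 ≤ 0.043 ^ 16 * (n : ℝ) ^ 6 :=
          mul_le_mul_of_nonneg_left h10 (by positivity)
        have h12 : (13.1 : ℝ) ^ 4 * 12.3 < 0.043 ^ 16 * 100000 ^ 6 := by norm_num
        linarith
      · -- 8 primes
        have hc : P.card = 8 := by omega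
        have hbig : 32000 ≤ n := by
          by_contra hcon
          push Not at hcon
          have := card_lt_of_prod_lt 8 (by norm_num) P hP h5 (by
            refine lt_of_le_of_lt hprod ?_
            have : n * n ≤ 31999 * 31999 := Nat.mul_le_mul (by omega) (by omega)
            refine lt_of_le_of_lt this ?_
            simp only [Finset.prod_range_succ, Finset.prod_range_zero, L5]
            norm_num)
          omega
        have hbigR : (32000 : ℝ) ≤ n := by exact_mod_cast hbig
        have h1 := dens_ge_of_card_le 8 (by norm_num) P hP h5 (by omega)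
        have h2 : (0.47 : ℝ) ≤ ∏ i ∈ range 8, (1 - 1 / (L5 i : ℝ)) := by
          simp only [Finset.prod_range_succ, Finset.prod_range_zero, L5]
          norm_num
        rw [hc]
        nlinarith
    · -- 7 primes
      have hc : P.card = 7 := by omega
      have h1 := dens_ge_of_card_le 7 (by norm_num) P hP h5 (by omega)
      have h2 : (0.4907 : ℝ) ≤ ∏ i ∈ range 7, (1 - 1 / (L5 i : ℝ)) := by
        simp only [Finset.prod_range_succ, Finset.prod_range_zero, L5]
        norm_num
      rw [hc]
      have h3 : (0.4907 : ℝ) ≤ dens P := h2.trans h1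
      have h4 : (6098 : ℝ) * 0.4907 ≤ n * dens P :=
        mul_le_mul hnR h3 (by norm_num) (by linarith)
      norm_num at h4 ⊢
      linarith
  · -- at most 6 primes
    have h1 := dens_ge_of_card_le 6 (by norm_num) P hP h5 (by omega)
    have h2 : (0.513 : ℝ) ≤ ∏ i ∈ range 6, (1 - 1 / (L5 i : ℝ)) := by
      simp only [Finset.prod_range_succ, Finset.prod_range_zero, L5]
      norm_num
    have h3 : (0.513 : ℝ) ≤ dens P := h2.trans h1
    have h4 : (6098 : ℝ) * 0.513 ≤ n * dens P :=
      mul_le_mul hnR h3 (by norm_num) (by linarith)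
    have h5' : (2 : ℝ) ^ P.card ≤ 2 ^ 6 := pow_le_pow_right₀ (by norm_num) h6
    norm_num at h4 h5' ⊢
    linarith

end Pool.Agent.H15.CG
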