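import Mathlib
import Pool.Agent.H15.CG.CaseI

/-!
# The skeleton for large `n`: blocks sorted by a level function
-/

set_option autoImplicit false

namespace Pool.Agent.H15.CG

def EV (n : ℕ) : Finset ℕ := (Finset.Icc 1 n).filter (fun j => 2 ∣ j)
def ecop (n a b : ℕ) : Finset ℕ := (ES n).filter (fun j => Nat.Coprime a j ∧ Nat.Coprime j b)
def vcop (n a b : ℕ) : Finset ℕ := (EV n).filter (fun j => Nat.Coprime a j ∧ Nat.Coprime j b)
noncomputable def NL (n : ℕ) (lev : ℕ → ℝ) (z : ℝ) : ℕ :=
  ((US n ∪ TS n).filter (fun c => lev c ≤ z)).card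

theorem mem_EV {n j : ℕ} : j ∈ EV n ↔ 1 ≤ j ∧ j ≤ n ∧ j % 2 = 0 := by
  simp only [EV, Finset.mem_filter, Finset.mem_Icc, and_assoc]
  omega

theorem mem_odd {n j : ℕ} : j ∈ US n ∪ TS n ↔ 1 ≤ j ∧ j ≤ n ∧ j % 2 = 1 := by
  rw [Finset.mem_union, mem_US, mem_TS]
  omega

theorem card_EV (n : ℕ) : (EV n).card = n / 2 := by
  induction n with
  | zero => simp [EV]
  | succ n ih =>
    unfold EV at ih ⊢
    rw [card_filter_Icc_succ, ih]
    by_cases h : 2 ∣ n + 1
    · rw [if_pos h]
      omega
    · rw [if_neg h]
      omega

theorem ES_subset_EV (n : ℕ) : ES n ⊆ EV n := by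
  intro x hx
  rw [mem_ES] at hx
  rw [mem_EV]
  omega

/-- removing the `x` elements of smallest level -/
theorem exists_best (lev : ℕ → ℝ) : ∀ (x : ℕ) (O : Finset ℕ), x ≤ O.card →
    ∃ G ⊆ O, G.card + x = O.card ∧ ∀ g ∈ G, ∀ d ∈ O \ G, lev d ≤ lev g := by
  classical
  intro x
  induction x with
  | zero =>
    intro O _
    refine ⟨O, Finset.Subset.refl O, rfl, ?_⟩
    intro g _ d hd
    simp at hd
  | succ x ih =>
    intro O hO
    obtain ⟨d0, hd0, hmin⟩ := O.exists_min_image lev (Finset.card_pos.mp (by omega))
    have hc := Finset.card_erase_add_one hd0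
    obtain ⟨G, hG, hGc, hGd⟩ := ih (O.erase d0) (by omega)
    refine ⟨G, hG.trans (Finset.erase_subset _ _), by omega, ?_⟩
    intro g hg d hd
    rw [Finset.mem_sdiff] at hd
    by_cases hdd : d = d0
    · rw [hdd]
      exact hmin g (Finset.mem_of_mem_erase (hG hg))
    · exact hGd g hg d (Finset.mem_sdiff.mpr ⟨Finset.mem_erase.mpr ⟨hdd, hd.1⟩, hd.2⟩)

/-- sorted enumeration, smallest level first -/
theorem sorted_asc (lev : ℕ → ℝ) : ∀ (k : ℕ) (X : Finset ℕ), X.card = k →
    ∃ e : ℕ → ℕ, (∀ i < k, e i ∈ X) ∧ (∀ i < k, ∀ j < k, e i = e j → i = j) ∧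
      (∀ i, i + 1 < k → lev (e i) ≤ lev (e (i + 1))) := by
  classical
  intro k
  induction k with
  | zero => intro X _; exact ⟨fun _ => 0, by simp, by simp, by simp⟩
  | succ k ih =>
    intro X hX
    have hne : X.Nonempty := by
      rw [← Finset.card_pos]; omega
    obtain ⟨x, hx, hmax⟩ := X.exists_max_image lev hne
    have hc : (X.erase x).card = k := by
      rw [Finset.card_erase_of_mem hx]; omega
    obtain ⟨e, h1, h2, h3⟩ := ih (X.erase x) hc
    refine ⟨fun i => if i < k then e i else x, ?_, ?_, ?_⟩
    · intro i hi
      simp only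
      split_ifs with h
      · exact Finset.mem_of_mem_erase (h1 i h)
      · exact hx
    · intro i hi j hj hij
      simp only at hij
      split_ifs at hij with h h'
      · exact h2 i h j h' hij
      · exact absurd hij (Finset.ne_of_mem_erase (h1 i h))
      · rename_i h'
        exact absurd hij.symm (Finset.ne_of_mem_erase (h1 j h'))
      · omega
    · intro i hi
      simp only
      rw [if_pos (by omega)]
      split_ifs with h
      · exact h3 i (by omega)
      · exact hmax _ (Finset.mem_of_mem_erase (h1 i (by omega)))

/-- Enumeration in two blocks (multiples of 5 and the others), each sorted; all neighbours but one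
pair are in the same block and in order. -/
theorem block_enum (lev : ℕ → ℝ) (X : Finset ℕ) :
    ∃ (e : ℕ → ℕ) (m : ℕ), (∀ i < X.card, e i ∈ X) ∧
      (∀ i < X.card, ∀ j < X.card, e i = e j → i = j) ∧
      (∀ i, i + 1 < X.card → i + 1 ≠ m →
        ((5 ∣ e i ↔ 5 ∣ e (i + 1)) ∧ lev (e i) ≤ lev (e (i + 1)))) := by
  classical
  obtain ⟨e5, a1, a2, a3⟩ := sorted_asc lev _ (X.filter (fun x => 5 ∣ x)) rfl
  obtain ⟨e0, b1, b2, b3⟩ := sorted_asc lev _ (X.filter (fun x => ¬ 5 ∣ x)) rfl
  have hsum := Finset.card_filter_add_card_filter_not (s := X) (fun x => 5 ∣ x)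
  set m := (X.filter (fun x => 5 ∣ x)).card with hm
  set k := (X.filter (fun x => ¬ 5 ∣ x)).card with hk
  refine ⟨fun i => if i < m then e5 i else e0 (i - m), m, ?_, ?_, ?_⟩
  · intro i hi
    simp only
    split_ifs with h
    · exact (Finset.mem_filter.mp (a1 i h)).1
    · exact (Finset.mem_filter.mp (b1 (i - m) (by omega))).1
  · intro i hi j hj hij
    simp only at hij
    split_ifs at hij with h h'
    · exact a2 i h j h' hij
    · exfalso
      have h1 := (Finset.mem_filter.mp (a1 i h)).2
      have h2 := (Finset.mem_filter.mp (b1 (j - m) (by omega))).2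
      rw [hij] at h1
      exact h2 h1
    · rename_i h'
      exfalso
      have h1 := (Finset.mem_filter.mp (a1 j h')).2
      have h2 := (Finset.mem_filter.mp (b1 (i - m) (by omega))).2
      rw [hij] at h2
      exact h2 h1
    · have := b2 (i - m) (by omega) (j - m) (by omega) hij
      omega
  · intro i hi him
    simp only
    by_cases h : i < m
    · have h' : i + 1 < m := by omega
      rw [if_pos h, if_pos h']
      refine ⟨?_, a3 i h'⟩
      have h1 := (Finset.mem_filter.mp (a1 i h)).2
      have h2 := (Finset.mem_filter.mp (a1 (i + 1) h')).2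
      exact ⟨fun _ => h2, fun _ => h1⟩
    · have h' : ¬ i + 1 < m := by omega
      rw [if_neg h, if_neg h']
      have e1 : i + 1 - m = (i - m) + 1 := by omega
      rw [e1]
      refine ⟨?_, b3 (i - m) (by omega)⟩
      have h1 := (Finset.mem_filter.mp (b1 (i - m) (by omega))).2
      have h2 := (Finset.mem_filter.mp (b1 (i - m + 1) (by omega))).2
      exact ⟨fun h => absurd h h1, fun h => absurd h h2⟩

/-- The number of odd members. -/
theorem card_odd_inter {n : ℕ} {A : Finset ℕ} (hA : A ⊆ Finset.Icc 1 n)
    (hc : A.card = n / 2 + n / 3 - n / 6 + 1) :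
    (A ∩ (US n ∪ TS n)).card = (n + 3) / 6 + 1 + (EV n \ A).card := by
  classical
  have h1 : A.card = (A ∩ (US n ∪ TS n)).card + (A ∩ EV n).card := by
    rw [← Finset.card_union_of_disjoint, ← Finset.inter_union_distrib_left]
    · congr 1
      symm
      rw [Finset.inter_eq_left]
      intro x hx
      have hx' := Finset.mem_Icc.mp (hA hx)
      rw [Finset.mem_union, mem_odd, mem_EV]
      omega
    · rw [Finset.disjoint_left]
      intro x hx hy
      have h1 := (Finset.mem_inter.mp hx).2
      have h2 := (Finset.mem_inter.mp hy).2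
      rw [mem_odd] at h1
      rw [mem_EV] at h2
      omega
  have h2 : (EV n).card = (EV n \ A).card + (A ∩ EV n).card := by
    rw [Finset.inter_comm, Finset.card_sdiff_add_card_inter]
  have h3 := card_EV n
  omega

/-- **The skeleton.** -/
theorem skeleton {n K : ℕ} {A : Finset ℕ} (hn : 6 ≤ n) (hA : A ⊆ Finset.Icc 1 n)
    (hc : A.card = n / 2 + n / 3 - n / 6 + 1) (hK : 1 ≤ K) (hK2 : 2 * K ≤ n / 3)
    (lev : ℕ → ℝ)
    (H2T : ∀ a ∈ TS n, ∀ b ∈ TS n, (5 ∣ a ↔ 5 ∣ b) → lev a ≤ lev b →
      lev a ≤ ((ecop n a b).card : ℝ))
    (H2R : ∀ a ∈ US n, ∀ b ∈ US n, (5 ∣ a ↔ 5 ∣ b) → lev a ≤ lev b →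
      lev a ≤ ((vcop n a b).card : ℝ))
    (H3 : ∀ a ∈ US n ∪ TS n, (EV n \ A).card < NL n lev (lev a) →
      (NL n lev (lev a) : ℝ) + 5 ≤ lev a ∨
        ((EV n \ A).card : ℝ) + ((n / 6 : ℕ) : ℝ) ≤ lev a)
    (H4T : ∀ a ∈ US n ∪ TS n, ∀ b ∈ US n ∪ TS n, (a ∈ TS n ∨ b ∈ TS n) →
      (EV n \ A).card < NL n lev (lev a) → (EV n \ A).card < NL n lev (lev b) →
      (EV n \ A).card + 5 ≤ (ecop n a b).card)
    (H4R : ∀ a ∈ US n, ∀ b ∈ US n,
      (EV n \ A).card < NL n lev (lev a) → (EV n \ A).card < NL n lev (lev b) →
      (EV n \ A).card + 5 ≤ (vcop n a b).card) :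
    HasCyc A (2 * K + 1) := by
  classical
  have hOcard := card_odd_inter hA hc
  set x := (EV n \ A).card with hx
  set O := A ∩ (US n ∪ TS n) with hO
  have hKn : K ≤ n / 6 := by omega
  obtain ⟨G, hGO, hGc, hGd⟩ := exists_best lev x O (by omega)
  have hGc' : G.card = (n + 3) / 6 + 1 := by omega
  have hGA : G ⊆ A := hGO.trans Finset.inter_subset_left
  have hGodd : G ⊆ US n ∪ TS n := hGO.trans Finset.inter_subset_right
  -- number of members of `G` of small level
  have hGlev : ∀ g ∈ G, (G.filter (fun c => lev c ≤ lev g)).card + x ≤ NL n lev (lev g) := by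
    intro g hg
    have hsub : G.filter (fun c => lev c ≤ lev g) ∪ (O \ G) ⊆
        (US n ∪ TS n).filter (fun c => lev c ≤ lev g) := by
      intro c hc'
      rw [Finset.mem_union] at hc'
      rw [Finset.mem_filter]
      rcases hc' with h | h
      · rw [Finset.mem_filter] at h
        exact ⟨hGodd h.1, h.2⟩
      · exact ⟨(Finset.mem_inter.mp (Finset.mem_sdiff.mp h).1).2, hGd g hg c h⟩
    have hdisj : Disjoint (G.filter (fun c => lev c ≤ lev g)) (O \ G) := by
      rw [Finset.disjoint_left]
      intro c h1 h2
      exact (Finset.mem_sdiff.mp h2).2 (Finset.mem_filter.mp h1).1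
    have h1 := Finset.card_le_card hsub
    rw [Finset.card_union_of_disjoint hdisj] at h1
    have h2 : (O \ G).card = x := by
      have := Finset.card_sdiff_add_card_eq_card hGO
      omega
    unfold NL
    omega
  have hGx : ∀ g ∈ G, x < NL n lev (lev g) := by
    intro g hg
    have h1 := hGlev g hg
    have h2 : 0 < (G.filter (fun c => lev c ≤ lev g)).card :=
      Finset.card_pos.mpr ⟨g, Finset.mem_filter.mpr ⟨hg, le_rfl⟩⟩
    omega
  -- the direct pair
  have hGint : G ∩ (US n ∪ TS n) = G := Finset.inter_eq_left.mpr hGodd
  obtain ⟨u0, hu0, o, ho, huo, hcop⟩ := exists_pair (n := n) (by omega) (A := G)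
    (by rw [hGint]; omega)
  rw [hGint] at ho
  have hu0G : u0 ∈ G := (Finset.mem_inter.mp hu0).1
  have hu0U : u0 ∈ US n := (Finset.mem_inter.mp hu0).2
  -- the base
  obtain ⟨Bs, hpB, hBG, hBc⟩ : ∃ Bs : Finset ℕ, {u0, o} ⊆ Bs ∧ Bs ⊆ G ∧ Bs.card = K + 1 := by
    apply Finset.exists_subsuperset_card_eq
    · intro z hz
      simp only [Finset.mem_insert, Finset.mem_singleton] at hz
      rcases hz with rfl | rfl
      · exact hu0G
      · exact ho
    · rw [Finset.card_pair huo]; omega
    · omega
  set X := (Bs.erase u0).erase o with hXdef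
  have hu0B : u0 ∈ Bs := hpB (by simp)
  have hoB : o ∈ Bs := hpB (by simp)
  have hXc : X.card + 1 = K := by
    have h1 := Finset.card_erase_add_one hu0B
    have h2 := Finset.card_erase_add_one (s := Bs.erase u0) (a := o)
      (Finset.mem_erase.mpr ⟨huo.symm, hoB⟩)
    rw [← hXdef] at h2
    omega
  have hXG : X ⊆ G := ((Finset.erase_subset _ _).trans (Finset.erase_subset _ _)).trans hBG
  have hXo : o ∉ X := by rw [hXdef]; simp
  have hXu : u0 ∉ X := by
    rw [hXdef, Finset.mem_erase, Finset.mem_erase]
    tauto
  have hXsplit : (X ∩ TS n).card + (X ∩ US n).card = X.card := by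
    rw [← Finset.card_union_of_disjoint, ← Finset.inter_union_distrib_left]
    · congr 1
      rw [Finset.inter_eq_left, Finset.union_comm]
      exact hXG.trans hGodd
    · exact ((US_disj_TS n).mono Finset.inter_subset_right Finset.inter_subset_right).symm
  obtain ⟨eT, mT, t1, t2, t3⟩ := block_enum lev (X ∩ TS n)
  obtain ⟨eU, mU, r1, r2, r3⟩ := block_enum lev (X ∩ US n)
  set p := (X ∩ TS n).card with hp
  set s := (X ∩ US n).card with hs
  let B : ℕ → ℕ := fun i => if i = 0 ∨ i = K + 1 then o else if i = K then u0 else
    if i ≤ p then eT (i - 1) else eU (i - 1 - p)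
  have hB0 : B 0 = o := by simp [B]
  have hBK1 : B (K + 1) = o := by simp [B]
  have hBK : B K = u0 := by
    simp only [B]
    rw [if_neg (by omega), if_pos trivial]
  have hBT : ∀ i, 1 ≤ i → i ≤ p → B i = eT (i - 1) := by
    intro i h1 h2
    simp only [B]
    rw [if_neg (by omega), if_neg (by omega), if_pos h2]
  have hBU : ∀ i, p < i → i < K → B i = eU (i - 1 - p) := by
    intro i h1 h2
    simp only [B]
    rw [if_neg (by omega), if_neg (by omega), if_neg (by omega)]
  have hBTm : ∀ i, 1 ≤ i → i ≤ p → B i ∈ X ∩ TS n := by
    intro i h1 h2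
    rw [hBT i h1 h2]
    exact t1 _ (by omega)
  have hBUm : ∀ i, p < i → i < K → B i ∈ X ∩ US n := by
    intro i h1 h2
    rw [hBU i h1 h2]
    exact r1 _ (by omega)
  have hBXm : ∀ i, 1 ≤ i → i < K → B i ∈ X := by
    intro i h1 h2
    by_cases h : i ≤ p
    · exact (Finset.mem_inter.mp (hBTm i h1 h)).1
    · exact (Finset.mem_inter.mp (hBUm i (by omega) h2)).1
  have hBGm : ∀ i ≤ K + 1, B i ∈ G := by
    intro i hi
    by_cases h0 : i = 0
    · rw [h0, hB0]; exact ho
    · by_cases h1 : i = K + 1
      · rw [h1, hBK1]; exact ho
      · by_cases h2 : i = K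
        · rw [h2, hBK]; exact hu0G
        · exact hXG (hBXm i (by omega) (by omega))
  have hinj : ∀ i < K + 1, ∀ j < K + 1, B i = B j → i = j := by
    intro i hi j hj hij
    by_cases hi0 : i = 0
    · by_cases hj0 : j = 0
      · omega
      · rw [hi0, hB0] at hij
        by_cases hjK : j = K
        · rw [hjK, hBK] at hij
          exact absurd hij.symm huo
        · have := hBXm j (by omega) (by omega)
          rw [← hij] at this
          exact absurd this hXo
    · by_cases hj0 : j = 0
      · rw [hj0, hB0] at hij
        by_cases hiK : i = K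
        · rw [hiK, hBK] at hij
          exact absurd hij huo
        · have := hBXm i (by omega) (by omega)
          rw [hij] at this
          exact absurd this hXo
      · by_cases hiK : i = K
        · by_cases hjK : j = K
          · omega
          · rw [hiK, hBK] at hij
            have := hBXm j (by omega) (by omega)
            rw [← hij] at this
            exact absurd this hXu
        · by_cases hjK : j = K
          · rw [hjK, hBK] at hij
            have := hBXm i (by omega) (by omega)
            rw [hij] at this
            exact absurd this hXu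
          · by_cases hip : i ≤ p
            · by_cases hjp : j ≤ p
              · rw [hBT i (by omega) hip, hBT j (by omega) hjp] at hij
                have := t2 _ (by omega) _ (by omega) hij
                omega
              · exfalso
                have h1 := (Finset.mem_inter.mp (hBTm i (by omega) hip)).2
                have h2 := (Finset.mem_inter.mp (hBUm j (by omega) (by omega))).2
                rw [hij] at h1
                exact Finset.disjoint_left.mp (US_disj_TS n) h2 h1
            · by_cases hjp : j ≤ p
              · exfalso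
                have h1 := (Finset.mem_inter.mp (hBTm j (by omega) hjp)).2
                have h2 := (Finset.mem_inter.mp (hBUm i (by omega) (by omega))).2
                rw [hij] at h2
                exact Finset.disjoint_left.mp (US_disj_TS n) h2 h1
              · rw [hBU i (by omega) (by omega), hBU j (by omega) (by omega)] at hij
                have := r2 _ (by omega) _ (by omega) hij
                omega
  -- candidate sets
  let S : ℕ → Finset ℕ := fun i =>
    if B i ∈ US n ∧ B (i + 1) ∈ US n then
      (EV n ∩ A).filter (fun j => Nat.Coprime (B i) j ∧ Nat.Coprime j (B (i + 1)))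
    else (ES n ∩ A).filter (fun j => Nat.Coprime (B i) j ∧ Nat.Coprime j (B (i + 1)))
  have hES : (ES n \ A).card ≤ x :=
    Finset.card_le_card (Finset.sdiff_subset_sdiff (ES_subset_EV n) (Finset.Subset.refl A))
  have hScard : ∀ i, (if B i ∈ US n ∧ B (i + 1) ∈ US n then (vcop n (B i) (B (i + 1))).card
      else (ecop n (B i) (B (i + 1))).card) ≤ (S i).card + x := by
    intro i
    simp only [S]
    split_ifs
    · exact card_filter_inter (EV n) A _
    · exact (card_filter_inter (ES n) A _).trans (by omega)
  have hSsub : ∀ i, ∀ y ∈ S i, y ∈ EV n ∧ y ∈ A ∧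
      Nat.Coprime (B i) y ∧ Nat.Coprime y (B (i + 1)) := by
    intro i y hy
    simp only [S] at hy
    split_ifs at hy
    · rw [Finset.mem_filter, Finset.mem_inter] at hy
      exact ⟨hy.1.1, hy.1.2, hy.2⟩
    · rw [Finset.mem_filter, Finset.mem_inter] at hy
      exact ⟨ES_subset_EV n hy.1.1, hy.1.2, hy.2⟩
  let Sp : Finset ℕ := {0, p, K - 1, mT, p + mU}
  have hSpc : Sp.card ≤ 5 := Finset.card_le_five
  let lv : ℕ → WithBot ℝ := fun i => if i ∈ Sp then ⊥ else ((lev (B i) : ℝ) : WithBot ℝ)
  have hfin := builder_rank (A := A) (K + 1) B (Finset.range K) S lv (by omega)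
    (by intro i hi; rw [Finset.mem_range] at hi; omega)
    (fun i hi => hGA (hBGm i (by omega))) hinj (by rw [hBK1, hB0])
    (by
      intro i hi hiJ
      rw [Finset.mem_range] at hiJ
      have : i = K := by omega
      subst this
      rw [hBK, hBK1]
      exact hcop)
    (fun i _ y hy => (hSsub i y hy).2.1)
    (by
      intro i _ y hy j hj hyj
      have h1 := (hSsub i y hy).1
      have h2 := hGodd (hBGm j (by omega))
      rw [mem_EV] at h1
      rw [← hyj, mem_odd] at h2
      omega)
    (fun i _ y hy => (hSsub i y hy).2.2)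
    (by
      intro i hi
      rw [Finset.mem_range] at hi
      have hgi := hBGm i (by omega)
      have hgi1 := hBGm (i + 1) (by omega)
      have hSi := hScard i
      by_cases hsp : i ∈ Sp
      · -- special gap
        have h1 : ((Finset.range K).filter (fun j => lv j ≤ lv i)).card ≤ 5 := by
          refine le_trans (Finset.card_le_card ?_) hSpc
          intro j hj
          rw [Finset.mem_filter] at hj
          by_contra hjn
          have h2 := hj.2
          simp only [lv, hsp, hjn, if_true, if_false] at h2
          exact absurd h2 (by simp)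
        by_cases hUU : B i ∈ US n ∧ B (i + 1) ∈ US n
        · rw [if_pos hUU] at hSi
          have h2 := H4R _ hUU.1 _ hUU.2 (hGx _ hgi) (hGx _ hgi1)
          omega
        · rw [if_neg hUU] at hSi
          have h2 := H4T _ (hGodd hgi) _ (hGodd hgi1) (by
            have h3 := hGodd hgi
            have h4 := hGodd hgi1
            rw [Finset.mem_union] at h3 h4
            tauto) (hGx _ hgi) (hGx _ hgi1)
          omega
      · -- regular gap
        have hmem : i ≠ 0 ∧ i ≠ p ∧ i ≠ K - 1 ∧ i ≠ mT ∧ i ≠ p + mU := by
          simp only [Sp, Finset.mem_insert, Finset.mem_singleton] at hsp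
          tauto
        obtain ⟨m0, mp, mK, mmT, mmU⟩ := hmem
        -- lower bound
        have hlow : lev (B i) ≤ ((S i).card : ℝ) + x := by
          by_cases hip : i < p
          · have hreg := t3 (i - 1) (by omega) (by omega)
            have e1 : i - 1 + 1 = i := by omega
            rw [e1] at hreg
            have hbi : B i = eT (i - 1) := hBT i (by omega) (by omega)
            have hbi1 : B (i + 1) = eT i := by
              have := hBT (i + 1) (by omega) (by omega)
              simpa using this
            rw [← hbi, ← hbi1] at hreg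
            have hT1 := (Finset.mem_inter.mp (hBTm i (by omega) (by omega))).2
            have hT2 := (Finset.mem_inter.mp (hBTm (i + 1) (by omega) (by omega))).2
            have hUU : ¬ (B i ∈ US n ∧ B (i + 1) ∈ US n) := fun h =>
              Finset.disjoint_left.mp (US_disj_TS n) h.1 hT1
            rw [if_neg hUU] at hSi
            have h2 := H2T _ hT1 _ hT2 hreg.1 hreg.2
            have h3 : ((ecop n (B i) (B (i + 1))).card : ℝ) ≤ (S i).card + x := by
              exact_mod_cast hSi
            linarith
          · have hreg := r3 (i - 1 - p) (by omega) (by omega)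
            have e1 : i - 1 - p + 1 = i - p := by omega
            rw [e1] at hreg
            have hbi : B i = eU (i - 1 - p) := hBU i (by omega) (by omega)
            have hbi1 : B (i + 1) = eU (i - p) := by
              have := hBU (i + 1) (by omega) (by omega)
              simpa using this
            rw [← hbi, ← hbi1] at hreg
            have hT1 := (Finset.mem_inter.mp (hBUm i (by omega) (by omega))).2
            have hT2 := (Finset.mem_inter.mp (hBUm (i + 1) (by omega) (by omega))).2
            rw [if_pos ⟨hT1, hT2⟩] at hSi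
            have h2 := H2R _ hT1 _ hT2 hreg.1 hreg.2
            have h3 : ((vcop n (B i) (B (i + 1))).card : ℝ) ≤ (S i).card + x := by
              exact_mod_cast hSi
            linarith
        -- rank
        have hrankK : ((Finset.range K).filter (fun j => lv j ≤ lv i)).card ≤ K := by
          calc _ ≤ (Finset.range K).card := Finset.card_filter_le _ _
            _ = K := Finset.card_range K
        have hrank : ((Finset.range K).filter (fun j => lv j ≤ lv i)).card ≤
            5 + (G.filter (fun c => lev c ≤ lev (B i))).card := by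
          have hsub : (Finset.range K).filter (fun j => lv j ≤ lv i) ⊆
              Sp ∪ (((Finset.range K).filter (fun j => j ∉ Sp ∧ lev (B j) ≤ lev (B i)))) := by
            intro j hj
            rw [Finset.mem_filter] at hj
            rw [Finset.mem_union]
            by_cases hjs : j ∈ Sp
            · exact Or.inl hjs
            · right
              rw [Finset.mem_filter]
              refine ⟨hj.1, hjs, ?_⟩
              have h2 := hj.2
              simp only [lv, hsp, hjs, if_false] at h2
              exact WithBot.coe_le_coe.mp h2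
          refine (Finset.card_le_card hsub).trans ((Finset.card_union_le _ _).trans ?_)
          apply Nat.add_le_add hSpc
          apply Finset.card_le_card_of_injOn B
          · intro j hj
            have hj' := Finset.mem_filter.mp (Finset.mem_coe.mp hj)
            rw [Finset.mem_coe, Finset.mem_filter]
            have := Finset.mem_range.mp hj'.1
            exact ⟨hBGm j (by omega), hj'.2.2⟩
          · intro a ha b hb hab
            have ha' := Finset.mem_range.mp (Finset.mem_filter.mp (Finset.mem_coe.mp ha)).1
            have hb' := Finset.mem_range.mp (Finset.mem_filter.mp (Finset.mem_coe.mp hb)).1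
            exact hinj a (by omega) b (by omega) hab
        have hGi := hGlev _ hgi
        rcases H3 _ (hGodd hgi) (hGx _ hgi) with h | h
        · have h4 : ((G.filter (fun c => lev c ≤ lev (B i))).card : ℝ) + x
              ≤ NL n lev (lev (B i)) := by exact_mod_cast hGi
          have h5 : (((Finset.range K).filter (fun j => lv j ≤ lv i)).card : ℝ) ≤
              5 + (G.filter (fun c => lev c ≤ lev (B i))).card := by exact_mod_cast hrank
          have h6 : (((Finset.range K).filter (fun j => lv j ≤ lv i)).card : ℝ)
              ≤ ((S i).card : ℝ) := by linarith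
          exact_mod_cast h6
        · have h5 : (((Finset.range K).filter (fun j => lv j ≤ lv i)).card : ℝ) ≤
              ((n / 6 : ℕ) : ℝ) := by exact_mod_cast hrankK.trans hKn
          have h6 : (((Finset.range K).filter (fun j => lv j ≤ lv i)).card : ℝ)
              ≤ ((S i).card : ℝ) := by linarith
          exact_mod_cast h6)
  have hl : K + 1 + (Finset.range K).card = 2 * K + 1 := by
    rw [Finset.card_range]; ring
  rw [hl] at hfin
  exact hfin

end Pool.Agent.H15.CG
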