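import Mathlib
import Pool.Agent.H15.CG.Skeleton
import Pool.Agent.H15.CG.LCand
import Pool.Agent.H2.Cop.StratB1

/-!
# Numerical part for few missing even numbers
-/

set_option autoImplicit false

namespace Pool.Agent.H15.CG

open Finset Pool.Agent.H2.Cop

theorem dens_ge_one_sub (P : Finset ℕ) (hP : ∀ p ∈ P, p.Prime) :
    1 - ∑ p ∈ P, 1 / (p : ℝ) ≤ dens P := by
  induction P using Finset.induction_on with
  | empty => simp [dens_empty]
  | insert p P hp ih =>
    have ih' := ih (fun q hq => hP q (mem_insert_of_mem hq))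
    rw [dens_insert hp, Finset.sum_insert hp]
    have hp2 : (2 : ℝ) ≤ p := by exact_mod_cast (hP p (mem_insert_self p P)).two_le
    have h1 : 0 ≤ 1 / (p : ℝ) := by positivity
    have h2 : dens P ≤ 1 := dens_le_one P (fun q hq => hP q (mem_insert_of_mem hq))
    nlinarith

theorem dens7_ge (x : ℕ) : 1 - s7 x ≤ dens7 x := dens_ge_one_sub _ pf7_prime

theorem s7_ge_of_u {x : ℕ} {t r : ℝ} (hr : 0 ≤ r) (h5 : ¬ 5 ∣ x) (hu : u x ≤ t) (ht : t ≤ r ^ 2) :
    1 - r ≤ s7 x := by
  unfold u at hu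
  rw [if_neg h5] at hu
  have h1 : dens7 x ≤ r := le_of_sq_le_sq (hu.trans ht) hr
  have := dens7_ge x
  linarith

theorem s7_ge_of_u5 {x : ℕ} {t r : ℝ} (hr : 0 ≤ r) (h5 : 5 ∣ x) (hu : u x ≤ t)
    (ht : 1.25 * t ≤ r ^ 2) : 1 - r ≤ s7 x := by
  unfold u at hu
  rw [if_pos h5] at hu
  have h0 : dens7 x ^ 2 ≤ r ^ 2 := by
    norm_num at hu ht ⊢
    linarith
  have h1 : dens7 x ≤ r := le_of_sq_le_sq h0 hr
  have := dens7_ge x
  linarith

section
variable {n : ℕ} (hn : 6098 ≤ n)
include hn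

theorem M_ge : (1016 : ℝ) ≤ ((n / 6 : ℕ) : ℝ) := by
  have h6 : 1016 ≤ n / 6 := by omega
  exact_mod_cast h6

theorem n_le_M : (n : ℝ) ≤ 6.005 * ((n / 6 : ℕ) : ℝ) := by
  have h4 : n ≤ 6 * (n / 6) + 5 := by omega
  have h5 : (n : ℝ) ≤ 6 * ((n / 6 : ℕ) : ℝ) + 5 := by exact_mod_cast h4
  have h7 := M_ge hn
  generalize ((n / 6 : ℕ) : ℝ) = K at *
  norm_num
  linarith

omit hn in
theorem n_ge_M (n : ℕ) : 6 * ((n / 6 : ℕ) : ℝ) ≤ (n : ℝ) := by
  have h4 : 6 * (n / 6) ≤ n := by omega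
  exact_mod_cast h4

omit hn in
theorem TS_eq (n : ℕ) : TS n = (Icc 1 n).filter (fun j => 3 ∣ j ∧ ¬ 2 ∣ j) := by
  ext x
  simp only [mem_TS, mem_filter, mem_Icc]
  omega

omit hn in
theorem TS_count (n : ℕ) (D : Finset ℕ) (hD : ∀ p ∈ D, p.Prime) (h5 : ∀ p ∈ D, 5 ≤ p) :
    (((TS n).filter (fun x => ∀ p ∈ D, p ∣ x)).card : ℝ)
      ≤ (n / 6) / (∏ p ∈ D, (p : ℝ)) + 1 / 2 := by
  rw [TS_eq]
  exact count_T hD h5 n

omit hn in
theorem US_count (n : ℕ) (D : Finset ℕ) (hD : ∀ p ∈ D, p.Prime) (h5 : ∀ p ∈ D, 5 ≤ p) :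
    (((US n).filter (fun x => ∀ p ∈ D, p ∣ x)).card : ℝ)
      ≤ (n / 3) / (∏ p ∈ D, (p : ℝ)) + 2 / 3 := by
  rw [US_eq]
  exact count_R hD h5 n

omit hn in
theorem prod_dvd_le {n p q x : ℕ} (hp : p ∈ primes7 n) (hq : q ∈ primes7 n) (hpq : p ≠ q)
    (hx1 : 1 ≤ x) (hxn : x ≤ n) (hpx : p ∣ x) (hqx : q ∣ x) : p ≤ n / 7 ∧ q ≤ n / 7 := by
  have hp7 := primes7_ge p hp
  have hq7 := primes7_ge q hq
  have hcop : Nat.Coprime p q :=
    (Nat.coprime_primes (primes7_prime p hp) (primes7_prime q hq)).mpr hpq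
  have hdvd : p * q ∣ x := hcop.mul_dvd_of_dvd_of_dvd hpx hqx
  have hle := Nat.le_of_dvd (by omega) hdvd
  constructor
  · rw [Nat.le_div_iff_mul_le (by norm_num)]
    nlinarith
  · rw [Nat.le_div_iff_mul_le (by norm_num)]
    nlinarith

theorem second_TS : ∑ x ∈ TS n, s7 x ^ 2 ≤ 0.00903 * ((n / 6 : ℕ) : ℝ) := by
  have h := second7 (TS n) n (n / 7) (by omega) ((n : ℝ) / 6) (1 / 2) (by positivity)
    (by norm_num) (by
      intro x hx
      rw [mem_TS] at hx
      rw [mem_Icc]; omega) (by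
      intro p hp
      have := TS_count n {p} (by
        intro q hq; rw [mem_singleton] at hq; subst hq; exact primes7_prime q hp) (by
        intro q hq; rw [mem_singleton] at hq; subst hq
        have := primes7_ge q hp; omega)
      simpa using this) (by
      intro p hp q hq hpq
      have := TS_count n {p, q} (by
        intro r hr; rw [mem_insert, mem_singleton] at hr
        rcases hr with rfl | rfl
        · exact primes7_prime r hp
        · exact primes7_prime r hq) (by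
        intro r hr; rw [mem_insert, mem_singleton] at hr
        rcases hr with rfl | rfl
        · have := primes7_ge r hp; omega
        · have := primes7_ge r hq; omega)
      rw [Finset.prod_pair hpq] at this
      simpa using this) (by
      intro p hp q hq hpq x hx hpx hqx
      rw [mem_TS] at hx
      exact prod_dvd_le hp hq hpq hx.1 hx.2.1 hpx hqx)
  have h1 := S1_sq n hn
  have h2 := n_le_M hn
  have h3 := M_ge hn
  generalize ((n / 6 : ℕ) : ℝ) = K at *
  norm_num at h h1 h2 h3 ⊢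
  linarith

theorem second_US5 : ∑ x ∈ (US n).filter (fun x => 5 ∣ x), s7 x ^ 2
    ≤ 0.00533 * ((n / 6 : ℕ) : ℝ) := by
  have h := second7 ((US n).filter (fun x => 5 ∣ x)) n (n / 7) (by omega) ((n : ℝ) / 15) (2 / 3)
    (by positivity)
    (by norm_num) (by
      intro x hx
      rw [mem_filter, mem_US] at hx
      rw [mem_Icc]; omega) (by
      intro p hp
      have hp7 := primes7_ge p hp
      have := US_count n {5, p} (by
        intro r hr; rw [mem_insert, mem_singleton] at hr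
        rcases hr with rfl | rfl
        · norm_num
        · exact primes7_prime r hp) (by
        intro r hr; rw [mem_insert, mem_singleton] at hr
        rcases hr with rfl | rfl
        · norm_num
        · omega)
      rw [Finset.prod_pair (by omega)] at this
      rw [Finset.filter_filter]
      have e : (n : ℝ) / 15 / p = (n / 3) / (((5 : ℕ) : ℝ) * p) := by
        push_cast
        rw [div_div, div_div]
        ring
      rw [e]
      simpa using this) (by
      intro p hp q hq hpq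
      have hp7 := primes7_ge p hp
      have hq7 := primes7_ge q hq
      have := US_count n {5, p, q} (by
        intro r hr; rw [mem_insert, mem_insert, mem_singleton] at hr
        rcases hr with rfl | rfl | rfl
        · norm_num
        · exact primes7_prime r hp
        · exact primes7_prime r hq) (by
        intro r hr; rw [mem_insert, mem_insert, mem_singleton] at hr
        rcases hr with rfl | rfl | rfl
        · norm_num
        · omega
        · omega)
      rw [Finset.prod_insert (by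
        rw [mem_insert, mem_singleton]; omega), Finset.prod_pair hpq] at this
      rw [Finset.filter_filter]
      have e : (n : ℝ) / 15 / (p * q) = (n / 3) / (((5 : ℕ) : ℝ) * (p * q)) := by
        push_cast
        rw [div_div, div_div]
        ring
      rw [e]
      simpa using this) (by
      intro p hp q hq hpq x hx hpx hqx
      rw [mem_filter, mem_US] at hx
      exact prod_dvd_le hp hq hpq hx.1.1 hx.1.2.1 hpx hqx)
  have h1 := S1_sq n hn
  have h2 := n_le_M hn
  have h3 := M_ge hn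
  generalize ((n / 6 : ℕ) : ℝ) = K at *
  norm_num at h h1 h2 h3 ⊢
  linarith

omit hn in
/-- Chebyshev -/
theorem cheb (X : Finset ℕ) {c d : ℝ} (hX : ∑ x ∈ X, s7 x ^ 2 ≤ c) (hd : 0 < d) :
    ((X.filter (fun x => d ≤ s7 x)).card : ℝ) ≤ c / d ^ 2 := by
  have h := markov X (fun x => s7 x ^ 2) (fun x _ => by positivity) (d ^ 2) (by positivity)
  have h1 : (X.filter (fun x => d ≤ s7 x)).card ≤ (X.filter (fun x => d ^ 2 ≤ s7 x ^ 2)).card := by
    apply Finset.card_le_card
    intro x hx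
    rw [mem_filter] at hx ⊢
    exact ⟨hx.1, pow_le_pow_left₀ hd.le hx.2 2⟩
  have h1' : ((X.filter (fun x => d ≤ s7 x)).card : ℝ)
      ≤ (X.filter (fun x => d ^ 2 ≤ s7 x ^ 2)).card := by exact_mod_cast h1
  exact h1'.trans (h.trans (div_le_div_of_nonneg_right hX (by positivity)))

theorem cT_bound {t r : ℝ} (hr : 0 ≤ r) (hr1 : r < 1) (ht : t ≤ r ^ 2) :
    (((TS n).filter (fun x => u x ≤ t)).card : ℝ)
      ≤ (0.00903 / (1 - r) ^ 2 + 0.2007) * ((n / 6 : ℕ) : ℝ) := by
  have hsub : (TS n).filter (fun x => u x ≤ t) ⊆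
      (TS n).filter (fun x => 1 - r ≤ s7 x) ∪ (TS n).filter (fun x => 5 ∣ x) := by
    intro x hx
    rw [mem_filter] at hx
    rw [mem_union, mem_filter, mem_filter]
    by_cases h5 : 5 ∣ x
    · right
      exact ⟨hx.1, h5⟩
    · left
      exact ⟨hx.1, s7_ge_of_u hr h5 hx.2 ht⟩
  have h1 := cheb (TS n) (second_TS hn) (d := 1 - r) (by linarith)
  have h2 : (((TS n).filter (fun x => 5 ∣ x)).card : ℝ) ≤ (n / 6) / 5 + 1 / 2 := by
    have := TS_count n {5} (by simp; norm_num) (by simp)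
    rw [Finset.prod_singleton] at this
    simpa using this
  have h3 : (((TS n).filter (fun x => u x ≤ t)).card : ℝ)
      ≤ ((TS n).filter (fun x => 1 - r ≤ s7 x)).card
        + ((TS n).filter (fun x => 5 ∣ x)).card := by
    exact_mod_cast (Finset.card_le_card hsub).trans (Finset.card_union_le _ _)
  have h4 := n_le_M hn
  have h5 := M_ge hn
  have e : 0.00903 * ((n / 6 : ℕ) : ℝ) / (1 - r) ^ 2
      = 0.00903 / (1 - r) ^ 2 * ((n / 6 : ℕ) : ℝ) := by ring
  rw [e] at h1
  rw [add_mul]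
  have h6 : (((TS n).filter (fun x => 5 ∣ x)).card : ℝ)
      ≤ 0.2007 * ((n / 6 : ℕ) : ℝ) := by
    refine h2.trans ?_
    have h7 : (n : ℝ) ≤ 6 * ((n / 6 : ℕ) : ℝ) + 5 := by
      have h4 : n ≤ 6 * (n / 6) + 5 := by omega
      exact_mod_cast h4
    generalize ((n / 6 : ℕ) : ℝ) = K at *
    norm_num
    linarith
  linarith

theorem cU_bound {t r r5 : ℝ} (hr : 0 ≤ r) (hr1 : r < 1) (hr5 : 0 ≤ r5) (hr51 : r5 < 1)
    (ht : t ≤ r ^ 2) (ht5 : 1.25 * t ≤ r5 ^ 2) :
    (((US n).filter (fun x => u x ≤ t)).card : ℝ)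
      ≤ (0.0169 / (1 - r) ^ 2 + 0.00533 / (1 - r5) ^ 2) * ((n / 6 : ℕ) : ℝ) := by
  have hsub : (US n).filter (fun x => u x ≤ t) ⊆
      (US n).filter (fun x => 1 - r ≤ s7 x) ∪
        ((US n).filter (fun x => 5 ∣ x)).filter (fun x => 1 - r5 ≤ s7 x) := by
    intro x hx
    rw [mem_filter] at hx
    rw [mem_union, mem_filter, mem_filter, mem_filter]
    by_cases h5 : 5 ∣ x
    · right
      exact ⟨⟨hx.1, h5⟩, s7_ge_of_u5 hr5 h5 hx.2 ht5⟩
    · left
      exact ⟨hx.1, s7_ge_of_u hr h5 hx.2 ht⟩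
  have h1 := cheb (US n) (second_US n hn) (d := 1 - r) (by linarith)
  have h2 := cheb ((US n).filter (fun x => 5 ∣ x)) (second_US5 hn) (d := 1 - r5) (by linarith)
  have h3 : (((US n).filter (fun x => u x ≤ t)).card : ℝ)
      ≤ ((US n).filter (fun x => 1 - r ≤ s7 x)).card
        + (((US n).filter (fun x => 5 ∣ x)).filter (fun x => 1 - r5 ≤ s7 x)).card := by
    exact_mod_cast (Finset.card_le_card hsub).trans (Finset.card_union_le _ _)
  have e : 0.0169 * ((n / 6 : ℕ) : ℝ) / (1 - r) ^ 2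
      = 0.0169 / (1 - r) ^ 2 * ((n / 6 : ℕ) : ℝ) := by ring
  have e' : 0.00533 * ((n / 6 : ℕ) : ℝ) / (1 - r5) ^ 2
      = 0.00533 / (1 - r5) ^ 2 * ((n / 6 : ℕ) : ℝ) := by ring
  rw [e] at h1
  rw [e'] at h2
  rw [add_mul]
  linarith

end

end Pool.Agent.H15.CG
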