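import Mathlib
import Pool.Agent.H15.CG.LNum

/-!
# Few missing even numbers: the case `20 * #(EV n \ A) ≤ 13 * (n / 6)`
-/

set_option autoImplicit false

namespace Pool.Agent.H15.CG

open Finset Pool.Agent.H2.Cop

/-- normalised level -/
noncomputable def zl (x : ℕ) : ℝ := if 3 ∣ x then 1.74 * u x else 2.87 * u x

/-- level -/
noncomputable def lv1 (n x : ℕ) : ℝ := zl x * ((n / 6 : ℕ) : ℝ)

theorem zl_pos (x : ℕ) : 0 < zl x := by
  unfold zl
  have := u_pos x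
  split_ifs <;> positivity

theorem zl_T {n x : ℕ} (hx : x ∈ TS n) : zl x = 1.74 * u x := by
  rw [mem_TS] at hx
  unfold zl
  rw [if_pos (by omega)]

theorem zl_U {n x : ℕ} (hx : x ∈ US n) : zl x = 2.87 * u x := by
  rw [mem_US] at hx
  unfold zl
  rw [if_neg (by omega)]

theorem pf5_prod_le {n a b : ℕ} (ha : a ∈ US n ∪ TS n) (hb : b ∈ US n ∪ TS n) :
    ∏ p ∈ pf5 (a * b), p ≤ n * n := by
  rw [mem_odd] at ha hb
  have h1 : 0 < a * b := Nat.mul_pos (by omega) (by omega)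
  have h2 := PD_prod_le h1
  have h3 : a * b ≤ n * n := Nat.mul_le_mul ha.2.1 hb.2.1
  exact le_trans h2 h3

theorem avoid_coprime {n a b j : ℕ} (ha : a ∈ US n ∪ TS n) (hb : b ∈ US n ∪ TS n)
    (h3 : ¬ 3 ∣ j ∨ (a ∈ US n ∧ b ∈ US n)) (hj : Avoids (pf5 (a * b)) j) :
    Nat.Coprime a j ∧ Nat.Coprime j b := by
  have ha' := mem_odd.mp ha
  have hb' := mem_odd.mp hb
  apply coprime_of_PD (by omega) (by omega)
  · rintro ⟨h, _⟩; omega
  · rintro ⟨h, h'⟩
    rcases h3 with h3 | h3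
    · exact h3 h'
    · have := mem_US.mp h3.1; omega
  · rintro ⟨h, _⟩; omega
  · rintro ⟨h, h'⟩
    rcases h3 with h3 | h3
    · exact h3 h'
    · have := mem_US.mp h3.2; omega
  · exact hj

theorem ecop_lower {n a b : ℕ} (hn : 6098 ≤ n) (ha : a ∈ US n ∪ TS n) (hb : b ∈ US n ∪ TS n) :
    1.74 * ((n / 6 : ℕ) : ℝ) * dens (pf5 (a * b)) ≤ ((ecop n a b).card : ℝ) := by
  have h1 := E_lower (P := pf5 (a * b)) (n := n) pf5_prime pf5_ge
  have h2 := eta hn (pf5 (a * b)) pf5_prime pf5_ge (pf5_prod_le ha hb)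
  have hd := dens_pos (pf5 (a * b)) pf5_prime
  have h3 : (((Icc 1 n).filter (fun j => 2 ∣ j ∧ ¬ 3 ∣ j ∧ Avoids (pf5 (a * b)) j)).card : ℝ)
      ≤ ((ecop n a b).card : ℝ) := by
    have : ((Icc 1 n).filter (fun j => 2 ∣ j ∧ ¬ 3 ∣ j ∧ Avoids (pf5 (a * b)) j)).card
        ≤ (ecop n a b).card := by
      apply Finset.card_le_card
      intro j hj
      rw [mem_filter, mem_Icc] at hj
      rw [ecop, mem_filter, mem_ES]
      refine ⟨⟨hj.1.1, hj.1.2, by omega⟩, avoid_coprime ha hb (Or.inl hj.2.2.1) hj.2.2.2⟩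
    exact_mod_cast this
  have h4 := n_ge_M n
  generalize ((n / 6 : ℕ) : ℝ) = K at *
  have h5 : 6 * K * dens (pf5 (a * b)) ≤ n * dens (pf5 (a * b)) :=
    mul_le_mul_of_nonneg_right h4 hd.le
  norm_num at h2 ⊢
  nlinarith

theorem vcop_lower {n a b : ℕ} (hn : 6098 ≤ n) (ha : a ∈ US n) (hb : b ∈ US n) :
    2.87 * ((n / 6 : ℕ) : ℝ) * dens (pf5 (a * b)) ≤ ((vcop n a b).card : ℝ) := by
  have ha0 : a ∈ US n ∪ TS n := Finset.mem_union_left _ ha
  have hb0 : b ∈ US n ∪ TS n := Finset.mem_union_left _ hb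
  have h1 := even_lower (P := pf5 (a * b)) (n := n) pf5_prime pf5_ge
  have h2 := eta hn (pf5 (a * b)) pf5_prime pf5_ge (pf5_prod_le ha0 hb0)
  have hd := dens_pos (pf5 (a * b)) pf5_prime
  have hnR : (6098 : ℝ) ≤ n := by exact_mod_cast hn
  have h2' : (2 : ℝ) ^ ((pf5 (a * b)).card - 1) ≤ 0.0215 * n * dens (pf5 (a * b)) := by
    rcases Nat.eq_zero_or_pos (pf5 (a * b)).card with h0 | hpos
    · have he : pf5 (a * b) = ∅ := Finset.card_eq_zero.mp h0
      rw [he, dens_empty]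
      norm_num
      linarith
    · have e : (2 : ℝ) ^ (pf5 (a * b)).card = 2 * 2 ^ ((pf5 (a * b)).card - 1) := by
        rw [← pow_succ']
        congr 1
        omega
      rw [e] at h2
      norm_num at h2 ⊢
      linarith
  have h3 : (((Icc 1 n).filter (fun j => 2 ∣ j ∧ Avoids (pf5 (a * b)) j)).card : ℝ)
      ≤ ((vcop n a b).card : ℝ) := by
    have : ((Icc 1 n).filter (fun j => 2 ∣ j ∧ Avoids (pf5 (a * b)) j)).card
        ≤ (vcop n a b).card := by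
      apply Finset.card_le_card
      intro j hj
      rw [mem_filter, mem_Icc] at hj
      rw [vcop, mem_filter, mem_EV]
      refine ⟨⟨hj.1.1, hj.1.2, by omega⟩, avoid_coprime ha0 hb0 (Or.inr ⟨ha, hb⟩) hj.2.2⟩
    exact_mod_cast this
  have h4 := n_ge_M n
  generalize ((n / 6 : ℕ) : ℝ) = K at *
  have h5 : 6 * K * dens (pf5 (a * b)) ≤ n * dens (pf5 (a * b)) :=
    mul_le_mul_of_nonneg_right h4 hd.le
  norm_num at h2' ⊢
  nlinarith

/-- number of odd numbers of normalised level at most `z` -/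
noncomputable def Nz (n : ℕ) (z : ℝ) : ℕ := ((US n ∪ TS n).filter (fun c => zl c ≤ z)).card

theorem NL_eq {n : ℕ} (hn : 6098 ≤ n) (a : ℕ) : NL n (lv1 n) (lv1 n a) = Nz n (zl a) := by
  unfold NL Nz lv1
  congr 1
  apply Finset.filter_congr
  intro c _
  have := M_ge hn
  have hpos : (0 : ℝ) < ((n / 6 : ℕ) : ℝ) := by linarith
  exact mul_le_mul_iff_left₀ hpos

theorem Nz_split (n : ℕ) (z : ℝ) : (Nz n z : ℝ) ≤
    ((TS n).filter (fun x => u x ≤ z / 1.74)).card + ((US n).filter (fun x => u x ≤ z / 2.87)).card := by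
  have hsub : (US n ∪ TS n).filter (fun c => zl c ≤ z) ⊆
      (TS n).filter (fun x => u x ≤ z / 1.74) ∪ (US n).filter (fun x => u x ≤ z / 2.87) := by
    intro c hc
    rw [mem_filter, Finset.mem_union] at hc
    rw [Finset.mem_union, mem_filter, mem_filter]
    rcases hc.1 with h | h
    · right
      refine ⟨h, ?_⟩
      have := hc.2
      rw [zl_U h] at this
      rw [le_div_iff₀ (by norm_num)]
      linarith
    · left
      refine ⟨h, ?_⟩
      have := hc.2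
      rw [zl_T h] at this
      rw [le_div_iff₀ (by norm_num)]
      linarith
  exact_mod_cast (Finset.card_le_card hsub).trans (Finset.card_union_le _ _)

theorem Nz_mono (n : ℕ) {z w : ℝ} (h : z ≤ w) : Nz n z ≤ Nz n w := by
  apply Finset.card_le_card
  intro c hc
  rw [mem_filter] at hc ⊢
  exact ⟨hc.1, hc.2.trans h⟩

theorem Nz_count (n : ℕ) {z : ℝ} (hz : 0 ≤ z) : (Nz n z : ℝ) ≤ 145 * n * (z / 1.74) ^ 12 := by
  refine le_trans ?_ (count_u n (t := z / 1.74) (by positivity))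
  have hsub : (US n ∪ TS n).filter (fun c => zl c ≤ z) ⊆
      (Icc 1 n).filter (fun x => u x ≤ z / 1.74) := by
    intro c hc
    rw [mem_filter] at hc ⊢
    have hc1 := mem_odd.mp hc.1
    refine ⟨by rw [mem_Icc]; omega, ?_⟩
    rw [le_div_iff₀ (by norm_num)]
    have h0 := u_pos c
    have h2 := hc.2
    rcases Finset.mem_union.mp hc.1 with h | h
    · rw [zl_U h] at h2
      norm_num at h2 ⊢
      linarith
    · rw [zl_T h] at h2
      norm_num at h2 ⊢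
      linarith
  exact_mod_cast Finset.card_le_card hsub

/-- small levels -/
theorem numA {n : ℕ} (hn : 6098 ≤ n) {z : ℝ} (hz : 0 < z) (hz1 : z ≤ 0.945) (h1 : 1 ≤ Nz n z) :
    (Nz n z : ℝ) + 5 ≤ 0.696 * z * ((n / 6 : ℕ) : ℝ) := by
  have h2 := Nz_count n hz.le
  have h3 := n_le_M hn
  have h4 := M_ge hn
  have h1R : (1 : ℝ) ≤ Nz n z := by exact_mod_cast h1
  generalize ((n / 6 : ℕ) : ℝ) = M at *
  set w : ℝ := z / 1.74 with hw
  have hw0 : 0 < w := by positivity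
  have hzw : z = 1.74 * w := by rw [hw]; field_simp
  have hw1 : w ≤ 0.5432 := by
    rw [hw, div_le_iff₀ (by norm_num)]
    norm_num at hz1 ⊢
    linarith
  have h5 : (Nz n z : ℝ) ≤ 871 * M * w ^ 12 := by
    refine h2.trans ?_
    apply mul_le_mul_of_nonneg_right _ (by positivity)
    norm_num at h3
    linarith
  -- w^11 small
  have h6 : w ^ 11 ≤ 0.5432 ^ 11 := pow_le_pow_left₀ hw0.le hw1 11
  have h7 : (0.5432 : ℝ) ^ 11 ≤ 0.001215 := by norm_num
  have h8 : 871 * M * w ^ 12 ≤ 1.06 * (w * M) := by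
    have e : 871 * M * w ^ 12 = 871 * w ^ 11 * (w * M) := by ring
    rw [e]
    apply mul_le_mul_of_nonneg_right _ (by positivity)
    norm_num at h7 ⊢
    linarith
  -- w M is not small
  have h9 : 50 ≤ w * M := by
    by_contra hcon
    push Not at hcon
    have h10 : (1 : ℝ) ≤ 871 * M * w ^ 12 := h1R.trans h5
    have h11 : (w * M) ^ 12 ≤ 50 ^ 12 := pow_le_pow_left₀ (by positivity) hcon.le 12
    have h12 : (1016 : ℝ) ^ 11 ≤ M ^ 11 := pow_le_pow_left₀ (by norm_num) h4 11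
    have h13 : M ^ 11 ≤ 871 * (w * M) ^ 12 := by
      have : M ^ 11 * 1 ≤ M ^ 11 * (871 * M * w ^ 12) :=
        mul_le_mul_of_nonneg_left h10 (by positivity)
      calc M ^ 11 = M ^ 11 * 1 := by ring
        _ ≤ M ^ 11 * (871 * M * w ^ 12) := this
        _ = 871 * (w * M) ^ 12 := by ring
    have h14 : (871 : ℝ) * 50 ^ 12 < 1016 ^ 11 := by norm_num
    linarith
  rw [hzw] at h5 ⊢
  have e2 : 0.696 * (1.74 * w) * M = 1.21104 * (w * M) := by ring
  rw [e2]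
  norm_num at h8 ⊢
  linarith

theorem step {n : ℕ} (hn : 6098 ≤ n) {z zh zlo : ℝ} (hz1 : zlo ≤ z) (hz2 : z ≤ zh)
    (c : ℝ) (hc : (Nz n zh : ℝ) ≤ c * ((n / 6 : ℕ) : ℝ)) (hcl : c + 5 / 1016 ≤ zlo) :
    (Nz n z : ℝ) + 5 ≤ z * ((n / 6 : ℕ) : ℝ) := by
  have h1 : (Nz n z : ℝ) ≤ Nz n zh := by exact_mod_cast Nz_mono n hz2
  have h4 := M_ge hn
  generalize ((n / 6 : ℕ) : ℝ) = M at *
  have h5 : (c + 5 / 1016) * M ≤ z * M := mul_le_mul_of_nonneg_right (hcl.trans hz1) (by linarith)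
  have h6 : 5 ≤ 5 / 1016 * M := by
    have : (5 : ℝ) / 1016 * 1016 ≤ 5 / 1016 * M := mul_le_mul_of_nonneg_left h4 (by norm_num)
    norm_num at this
    linarith
  linarith

theorem card_TS_le {n : ℕ} (hn : 6098 ≤ n) (t : ℝ) :
    (((TS n).filter (fun x => u x ≤ t)).card : ℝ) ≤ 1.001 * ((n / 6 : ℕ) : ℝ) := by
  have h1 : ((TS n).filter (fun x => u x ≤ t)).card ≤ n / 6 + 1 := by
    refine (Finset.card_filter_le _ _).trans ?_
    rw [card_TS]
    omega
  have h2 : (((TS n).filter (fun x => u x ≤ t)).card : ℝ) ≤ ((n / 6 : ℕ) : ℝ) + 1 := by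
    exact_mod_cast h1
  have h4 := M_ge hn
  generalize ((n / 6 : ℕ) : ℝ) = M at *
  norm_num
  linarith

/-- medium levels -/
theorem numB {n : ℕ} (hn : 6098 ≤ n) {z : ℝ} (hz1 : 0.945 ≤ z) (hz2 : z ≤ 1.65) :
    (Nz n z : ℝ) + 5 ≤ z * ((n / 6 : ℕ) : ℝ) := by
  have hM := M_ge hn
  have hM0 : (0 : ℝ) ≤ ((n / 6 : ℕ) : ℝ) := by linarith
  -- upper range
  have upT : ∀ (zh r r5 c : ℝ), 0 ≤ r → r < 1 → 0 ≤ r5 → r5 < 1 → zh / 2.87 ≤ r ^ 2 →
      1.25 * (zh / 2.87) ≤ r5 ^ 2 → 1.001 + (0.0169 / (1 - r) ^ 2 + 0.00533 / (1 - r5) ^ 2) ≤ c →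
      (Nz n zh : ℝ) ≤ c * ((n / 6 : ℕ) : ℝ) := by
    intro zh r r5 c a1 a2 a3 a4 a5 a6 a7
    have h1 := Nz_split n zh
    have h2 := card_TS_le hn (zh / 1.74)
    have h3 := cU_bound hn a1 a2 a3 a4 a5 a6
    have h4 : (1.001 + (0.0169 / (1 - r) ^ 2 + 0.00533 / (1 - r5) ^ 2)) * ((n / 6 : ℕ) : ℝ)
        ≤ c * ((n / 6 : ℕ) : ℝ) := mul_le_mul_of_nonneg_right a7 hM0
    rw [add_mul] at h4
    linarith
  have upB : ∀ (zh rT r r5 c : ℝ), 0 ≤ rT → rT < 1 → zh / 1.74 ≤ rT ^ 2 →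
      0 ≤ r → r < 1 → 0 ≤ r5 → r5 < 1 → zh / 2.87 ≤ r ^ 2 →
      1.25 * (zh / 2.87) ≤ r5 ^ 2 → (0.00903 / (1 - rT) ^ 2 + 0.2007) +
      (0.0169 / (1 - r) ^ 2 + 0.00533 / (1 - r5) ^ 2) ≤ c →
      (Nz n zh : ℝ) ≤ c * ((n / 6 : ℕ) : ℝ) := by
    intro zh rT r r5 c b1 b2 b3 a1 a2 a3 a4 a5 a6 a7
    have h1 := Nz_split n zh
    have h2 := cT_bound hn b1 b2 b3
    have h3 := cU_bound hn a1 a2 a3 a4 a5 a6
    have h4 : ((0.00903 / (1 - rT) ^ 2 + 0.2007) +
        (0.0169 / (1 - r) ^ 2 + 0.00533 / (1 - r5) ^ 2)) * ((n / 6 : ℕ) : ℝ)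
        ≤ c * ((n / 6 : ℕ) : ℝ) := mul_le_mul_of_nonneg_right a7 hM0
    rw [add_mul] at h4
    linarith
  rcases le_or_gt 1.53 z with h | h
  · exact step hn h hz2 1.525 (upT 1.65 0.759 0.848 1.525 (by norm_num) (by norm_num)
      (by norm_num) (by norm_num) (by norm_num) (by norm_num) (by norm_num)) (by norm_num)
  rcases le_or_gt 1.4 z with h' | h'
  · exact step hn h' h.le 1.395 (upT 1.53 0.731 0.817 1.395 (by norm_num) (by norm_num)
      (by norm_num) (by norm_num) (by norm_num) (by norm_num) (by norm_num)) (by norm_num)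
  rcases le_or_gt 1.31 z with h'' | h''
  · exact step hn h'' h'.le 1.3 (upT 1.4 0.699 0.781 1.3 (by norm_num) (by norm_num)
      (by norm_num) (by norm_num) (by norm_num) (by norm_num) (by norm_num)) (by norm_num)
  rcases le_or_gt 0.98 z with h3 | h3
  · exact step hn h3 h''.le 0.972 (upB 1.31 0.868 0.676 0.756 0.972 (by norm_num) (by norm_num)
      (by norm_num) (by norm_num) (by norm_num)
      (by norm_num) (by norm_num) (by norm_num) (by norm_num) (by norm_num)) (by norm_num)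
  · exact step hn hz1 h3.le 0.6 (upB 0.98 0.751 0.585 0.654 0.6 (by norm_num) (by norm_num)
      (by norm_num) (by norm_num) (by norm_num)
      (by norm_num) (by norm_num) (by norm_num) (by norm_num) (by norm_num)) (by norm_num)

end Pool.Agent.H15.CG
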