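import Mathlib
import Pool.Agent.H15.CG.LMain

/-!
# Few missing even numbers: conclusion
-/

set_option autoImplicit false

namespace Pool.Agent.H15.CG

open Finset Pool.Agent.H2.Cop

theorem dens_sq {x y : ℕ} (hx : x ≠ 0) (hy : y ≠ 0) :
    0.8 * (u x * u y) ≤ dens (pf5 (x * y)) ^ 2 := by
  have hA := dens7_mul_ge hx hy
  have hx0 := dens7_pos x
  have hy0 := dens7_pos y
  have hxy0 : 0 < dens7 x * dens7 y := mul_pos hx0 hy0
  have hsq : (dens7 x * dens7 y) ^ 2 ≤ dens7 (x * y) ^ 2 := pow_le_pow_left₀ hxy0.le hA 2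
  have hp : 0 ≤ (dens7 x * dens7 y) ^ 2 := by positivity
  by_cases h5x : 5 ∣ x
  · rw [dens5_of_dvd (Nat.mul_ne_zero hx hy) (Dvd.dvd.mul_right h5x y)]
    have e : (4 / 5 * dens7 (x * y)) ^ 2 = 16 / 25 * dens7 (x * y) ^ 2 := by ring
    rw [e]
    by_cases h5y : 5 ∣ y
    · unfold u
      rw [if_pos h5x, if_pos h5y]
      have e2 : 0.8 * (4 / 5 * dens7 x ^ 2 * (4 / 5 * dens7 y ^ 2))
          = 64 / 125 * (dens7 x * dens7 y) ^ 2 := by
        norm_num; ring
      rw [e2]
      linarith
    · unfold u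
      rw [if_pos h5x, if_neg h5y]
      have e2 : 0.8 * (4 / 5 * dens7 x ^ 2 * (dens7 y ^ 2))
          = 16 / 25 * (dens7 x * dens7 y) ^ 2 := by
        norm_num; ring
      rw [e2]
      linarith
  · by_cases h5y : 5 ∣ y
    · rw [dens5_of_dvd (Nat.mul_ne_zero hx hy) (Dvd.dvd.mul_left h5y x)]
      have e : (4 / 5 * dens7 (x * y)) ^ 2 = 16 / 25 * dens7 (x * y) ^ 2 := by ring
      rw [e]
      unfold u
      rw [if_neg h5x, if_pos h5y]
      have e2 : 0.8 * (dens7 x ^ 2 * (4 / 5 * dens7 y ^ 2))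
          = 16 / 25 * (dens7 x * dens7 y) ^ 2 := by
        norm_num; ring
      rw [e2]
      linarith
    · have h5xy : ¬ 5 ∣ x * y := fun h' => by
        rcases (by norm_num : Nat.Prime 5).dvd_mul.mp h' with h'' | h''
        · exact h5x h''
        · exact h5y h''
      rw [dens5_of_not_dvd h5xy]
      unfold u
      rw [if_neg h5x, if_neg h5y]
      have e2 : 0.8 * (dens7 x ^ 2 * (dens7 y ^ 2))
          = 4 / 5 * (dens7 x * dens7 y) ^ 2 := by
        norm_num; ring
      rw [e2]
      linarith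

/-- lower bound for the number of connectors of special gaps -/
theorem spec_bound {n x : ℕ} (hn : 6098 ≤ n) (hx : 20 * x ≤ 13 * (n / 6)) {z : ℝ} (hz : 0 < z)
    (hN : x < Nz n z) : (x : ℝ) + 5 ≤ 0.696 * z * ((n / 6 : ℕ) : ℝ) := by
  have hxN : (x : ℝ) + 1 ≤ Nz n z := by exact_mod_cast hN
  have hM := M_ge hn
  have hxR : (20 : ℝ) * x ≤ 13 * ((n / 6 : ℕ) : ℝ) := by exact_mod_cast hx
  rcases le_or_gt z 0.945 with h | h
  · have h1 := numA hn hz h (by omega)
    linarith
  · generalize ((n / 6 : ℕ) : ℝ) = M at *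
    have h2 : 0.696 * 0.945 * M ≤ 0.696 * z * M := by
      apply mul_le_mul_of_nonneg_right _ (by linarith)
      apply mul_le_mul_of_nonneg_left h.le (by norm_num)
    norm_num at h2 ⊢
    linarith

/-- **Few missing even numbers.** -/
theorem largeC1 (n : ℕ) (hn : 6098 ≤ n) (A : Finset ℕ) (hA : A ⊆ Finset.Icc 1 n)
    (hc : A.card = n / 2 + n / 3 - n / 6 + 1) (hx : 20 * (EV n \ A).card ≤ 13 * (n / 6))
    (K : ℕ) (hK : 1 ≤ K) (hK2 : 2 * K ≤ n / 3) : HasCyc A (2 * K + 1) := by
  have hM := M_ge hn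
  have hMpos : (0 : ℝ) < ((n / 6 : ℕ) : ℝ) := by linarith
  have hxR : (20 : ℝ) * (EV n \ A).card ≤ 13 * ((n / 6 : ℕ) : ℝ) := by exact_mod_cast hx
  apply skeleton (by omega) hA hc hK hK2 (lv1 n)
  · intro a ha b hb h5 hle
    have ha' := mem_TS.mp ha
    have hb' := mem_TS.mp hb
    have h1 : zl a ≤ zl b := le_of_mul_le_mul_right hle hMpos
    rw [zl_T ha, zl_T hb] at h1
    have h2 : u a ≤ u b := le_of_mul_le_mul_left h1 (by norm_num)
    have h3 := dens_pair_same (x := a) (y := b) (by omega) (by omega) h5 le_rfl h2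
    have h4 := ecop_lower hn (Finset.mem_union_right _ ha) (Finset.mem_union_right _ hb)
      (a := a) (b := b)
    refine le_trans ?_ h4
    unfold lv1
    rw [zl_T ha]
    have h5 : 1.74 * ((n / 6 : ℕ) : ℝ) * u a ≤ 1.74 * ((n / 6 : ℕ) : ℝ) * dens (pf5 (a * b)) :=
      mul_le_mul_of_nonneg_left h3 (by positivity)
    linarith
  · intro a ha b hb h5 hle
    have ha' := mem_US.mp ha
    have hb' := mem_US.mp hb
    have h1 : zl a ≤ zl b := le_of_mul_le_mul_right hle hMpos
    rw [zl_U ha, zl_U hb] at h1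
    have h2 : u a ≤ u b := le_of_mul_le_mul_left h1 (by norm_num)
    have h3 := dens_pair_same (x := a) (y := b) (by omega) (by omega) h5 le_rfl h2
    have h4 := vcop_lower hn ha hb
    refine le_trans ?_ h4
    unfold lv1
    rw [zl_U ha]
    have h5 : 2.87 * ((n / 6 : ℕ) : ℝ) * u a ≤ 2.87 * ((n / 6 : ℕ) : ℝ) * dens (pf5 (a * b)) :=
      mul_le_mul_of_nonneg_left h3 (by positivity)
    linarith
  · intro a _ hlt
    rw [NL_eq hn] at hlt ⊢
    have hz := zl_pos a
    unfold lv1
    rcases le_or_gt (zl a) 0.945 with h | h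
    · left
      have h1 := numA hn hz h (by omega)
      refine h1.trans ?_
      apply mul_le_mul_of_nonneg_right _ hMpos.le
      norm_num
      linarith
    · rcases le_or_gt (zl a) 1.65 with h' | h'
      · left
        exact numB hn h.le h'
      · right
        have h2 : 1.65 * ((n / 6 : ℕ) : ℝ) ≤ zl a * ((n / 6 : ℕ) : ℝ) :=
          mul_le_mul_of_nonneg_right h'.le hMpos.le
        generalize ((n / 6 : ℕ) : ℝ) = M at *
        norm_num at h2
        linarith
  · intro a ha b hb hT hNa hNb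
    rw [NL_eq hn] at hNa hNb
    have ha' := mem_odd.mp ha
    have hb' := mem_odd.mp hb
    set z := min (zl a) (zl b) with hzdef
    have hz : 0 < z := lt_min (zl_pos a) (zl_pos b)
    have hNz : (EV n \ A).card < Nz n z := by
      rcases min_choice (zl a) (zl b) with h | h
      · rw [hzdef, h]; exact hNa
      · rw [hzdef, h]; exact hNb
    have h1 := spec_bound hn hx hz hNz
    have h2 := ecop_lower hn ha hb
    have hza : z ≤ zl a := min_le_left _ _
    have hzb : z ≤ zl b := min_le_right _ _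
    have h3 : z ^ 2 ≤ 4.9938 * (u a * u b) := by
      have hua := u_pos a
      have hub := u_pos b
      have key : ∀ p q s t : ℝ, z ≤ p * s → z ≤ q * t → 0 < s → 0 < t → 0 < p → 0 < q →
          p * q ≤ 4.9938 → z ^ 2 ≤ 4.9938 * (s * t) := by
        intro p q s t e1 e2 e3 e4 e5 e6 e7
        calc z ^ 2 = z * z := by ring
          _ ≤ (p * s) * (q * t) := mul_le_mul e1 e2 hz.le (by positivity)
          _ = (p * q) * (s * t) := by ring
          _ ≤ 4.9938 * (s * t) := mul_le_mul_of_nonneg_right e7 (by positivity)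
      rcases Finset.mem_union.mp ha with hau | hat
      · rcases Finset.mem_union.mp hb with hbu | hbt
        · exfalso
          rcases hT with h | h
          · exact Finset.disjoint_left.mp (US_disj_TS n) hau h
          · exact Finset.disjoint_left.mp (US_disj_TS n) hbu h
        · rw [zl_U hau] at hza
          rw [zl_T hbt] at hzb
          exact key _ _ _ _ hza hzb hua hub (by norm_num) (by norm_num) (by norm_num)
      · rcases Finset.mem_union.mp hb with hbu | hbt
        · rw [zl_T hat] at hza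
          rw [zl_U hbu] at hzb
          exact key _ _ _ _ hza hzb hua hub (by norm_num) (by norm_num) (by norm_num)
        · rw [zl_T hat] at hza
          rw [zl_T hbt] at hzb
          exact key _ _ _ _ hza hzb hua hub (by norm_num) (by norm_num) (by norm_num)
    have h4 := dens_sq (x := a) (y := b) (by omega) (by omega)
    have hd := dens_pos (pf5 (a * b)) pf5_prime
    have h5 : 0.4 * z ≤ dens (pf5 (a * b)) := by
      apply le_of_sq_le_sq _ hd.le
      have e : (0.4 * z) ^ 2 = 0.16 * z ^ 2 := by norm_num; ring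
      rw [e]
      have huu : 0 < u a * u b := mul_pos (u_pos a) (u_pos b)
      norm_num at h3 h4 ⊢
      linarith
    have h6 : 1.74 * ((n / 6 : ℕ) : ℝ) * (0.4 * z) ≤
        1.74 * ((n / 6 : ℕ) : ℝ) * dens (pf5 (a * b)) :=
      mul_le_mul_of_nonneg_left h5 (by positivity)
    have h7 : (((EV n \ A).card : ℕ) : ℝ) + 5 ≤ ((ecop n a b).card : ℝ) := by
      refine h1.trans (le_trans ?_ (h6.trans h2))
      apply le_of_eq
      norm_num
      ring
    exact_mod_cast h7
  · intro a ha b hb hNa hNb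
    rw [NL_eq hn] at hNa hNb
    have ha' := mem_US.mp ha
    have hb' := mem_US.mp hb
    set z := min (zl a) (zl b) with hzdef
    have hz : 0 < z := lt_min (zl_pos a) (zl_pos b)
    have hNz : (EV n \ A).card < Nz n z := by
      rcases min_choice (zl a) (zl b) with h | h
      · rw [hzdef, h]; exact hNa
      · rw [hzdef, h]; exact hNb
    have h1 := spec_bound hn hx hz hNz
    have h2 := vcop_lower hn ha hb
    have hza : z ≤ zl a := min_le_left _ _
    have hzb : z ≤ zl b := min_le_right _ _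
    rw [zl_U ha] at hza
    rw [zl_U hb] at hzb
    have h3 := dens_pair_any (x := a) (y := b) (by omega) (by omega) (t := z / 2.87)
      (by positivity) (by rw [div_le_iff₀ (by norm_num)]; linarith)
      (by rw [div_le_iff₀ (by norm_num)]; linarith)
    have h6 : 2.87 * ((n / 6 : ℕ) : ℝ) * (0.894 * (z / 2.87)) ≤
        2.87 * ((n / 6 : ℕ) : ℝ) * dens (pf5 (a * b)) :=
      mul_le_mul_of_nonneg_left h3 (by positivity)
    have h7 : (((EV n \ A).card : ℕ) : ℝ) + 5 ≤ ((vcop n a b).card : ℝ) := by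
      refine h1.trans (le_trans ?_ (h6.trans h2))
      have e : 2.87 * ((n / 6 : ℕ) : ℝ) * (0.894 * (z / 2.87)) = 0.894 * z * ((n / 6 : ℕ) : ℝ) := by
        field_simp
      rw [e]
      apply mul_le_mul_of_nonneg_right _ hMpos.le
      norm_num
      linarith
    exact_mod_cast h7

end Pool.Agent.H15.CG
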