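import Mathlib
import Pool.Agent.H15.CG.LFinal
import Pool.Agent.H2.Cop.C2d

/-!
# All cases for `n ≥ 6098`

`largeC1` : at most `13/20 * (n/6)` even integers are missing from `A`;
`largeC2'` : more of them are missing.
-/

set_option autoImplicit false

namespace Pool.Agent.H15.CG

open Finset

theorem large (n : ℕ) (hn : 6098 ≤ n) (A : Finset ℕ) (hA : A ⊆ Finset.Icc 1 n)
    (hc : A.card = n / 2 + n / 3 - n / 6 + 1)
    (K : ℕ) (hK : 1 ≤ K) (hK2 : 2 * K ≤ n / 3) : HasCyc A (2 * K + 1) := by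
  rcases Nat.lt_or_ge (13 * (n / 6)) (20 * (EV n \ A).card) with hx | hx
  · exact Pool.Agent.H2.Cop.largeC2' n hn A hA hc hx K hK hK2
  · exact largeC1 n hn A hA hc hx K hK hK2

end Pool.Agent.H15.CG
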