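import Mathlib
import Pool.Agent.H15.CG.Check
import Pool.Agent.H15.CG.CaseII

/-!
# The statement for `n ≤ 6097`, and the reduction of the frozen form
-/

set_option autoImplicit false
open N9a221aa5

namespace Pool.Agent.H15.CG

/-- The statement for `n ≤ 6097` and exactly `f(n)+1` members. -/
theorem small (n : ℕ) (hn : n ≤ 6097) (A : Finset ℕ) (hA : A ⊆ Finset.Icc 1 n)
    (hc : A.card = n / 2 + n / 3 - n / 6 + 1) (K : ℕ) (hK : 1 ≤ K) (hK2 : 2 * K ≤ n / 3) :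
    HasCyc A (2 * K + 1) :=
  ofPairs hA hc hK hK2 (pairU_small (by omega) hn) (pairT_small (by omega) hn)

/-- Reduction of the frozen form to `HasCyc` for sets with exactly `f(n)+1` members. -/
theorem reduce {n : ℕ}
    (H : ∀ A : Finset ℕ, A ⊆ Finset.Icc 1 n → A.card = n / 2 + n / 3 - n / 6 + 1 →
      ∀ K : ℕ, 1 ≤ K → 2 * K ≤ n / 3 → HasCyc A (2 * K + 1))
    (A : Finset ℕ) (hA : A ⊆ Finset.Icc 1 n) (hc : n / 2 + n / 3 - n / 6 < A.card)
    (l : ℕ) (hodd : Odd l) (h3 : 3 ≤ l) (hl : l ≤ n / 3 + 1) :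
    l ∈ (coprimeGraph.induce (A : Set ℕ)).oddCycleLengths := by
  obtain ⟨A', hA', hcard⟩ := Finset.exists_subset_card_eq (Nat.succ_le_of_lt hc)
  obtain ⟨K, rfl⟩ := hodd
  rw [SimpleGraph.mem_oddCycleLengths_iff]
  refine ⟨?_, ⟨K, rfl⟩⟩
  exact ((H A' (hA'.trans hA) hcard K (by omega) (by omega)).mono hA').mem_cycleLengths (by omega)

/-- The frozen form for `n ≤ 6097`. -/
theorem small_frozen (n : ℕ) (hn : n ≤ 6097) (A : Finset ℕ) (hA : A ⊆ Finset.Icc 1 n)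
    (hc : n / 2 + n / 3 - n / 6 < A.card) (l : ℕ) (hodd : Odd l) (h3 : 3 ≤ l)
    (hl : l ≤ n / 3 + 1) : l ∈ (coprimeGraph.induce (A : Set ℕ)).oddCycleLengths :=
  reduce (fun A hA hc K hK hK2 => small n hn A hA hc K hK hK2) A hA hc l hodd h3 hl

end Pool.Agent.H15.CG
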